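import Pool.Agent.H78.SI.Chr

/-!
# From the characters to the evaluators
-/

set_option autoImplicit false
set_option linter.unusedSectionVars false

namespace Pool.Agent.H78.SI

open NumberField IsDedekindDomain Pool.Agent.Q20.RS Pool.Agent.Q20.SI
open Pool.Agent.Q20.TR (bt)

/-- every function of the characters is given by the group ring -/
theorem fourierC {G : Type} [Group G] [Fintype G] (c : (G →* ℂˣ) → ℂ)
    (hc : ∀ χ, IsAlgebraic ℚ (c χ)) :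
    ∃ a : G → ℂ, (∀ g, IsAlgebraic ℚ (a g)) ∧ ∀ χ, c χ = ∑ g, a g * ((χ g : ℂˣ) : ℂ) := by
  classical
  refine ⟨fun g => (Fintype.card G : ℂ)⁻¹ * ∑ χ, c χ * (((χ g : ℂˣ) : ℂ))⁻¹, fun g => ?_, fun χ => ?_⟩
  · refine (isAlgebraic_natCast (R := ℚ) (A := ℂ) _).inv.mul ?_
    refine (IsIntegral.sum _ fun χ _ => ?_).isAlgebraic
    refine ((hc χ).mul (IsAlgebraic.inv ?_)).isIntegral
    refine IsIntegral.isAlgebraic ?_
    refine IsIntegral.of_pow (n := Fintype.card G) Fintype.card_pos ?_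
    rw [← Units.val_pow_eq_pow_val, ← map_pow, pow_card_eq_one, map_one, Units.val_one]
    exact isIntegral_one
  · have hG : (Fintype.card G : ℂ) ≠ 0 := by exact_mod_cast Fintype.card_ne_zero
    have h2 : ∀ g, ((Fintype.card G : ℂ)⁻¹ * ∑ χ', c χ' * (((χ' g : ℂˣ) : ℂ))⁻¹) *
        ((χ g : ℂˣ) : ℂ) = (Fintype.card G : ℂ)⁻¹ *
        ∑ χ', c χ' * (((χ g : ℂˣ) : ℂ) * (((χ' g : ℂˣ) : ℂ))⁻¹) := by
      intro g
      rw [mul_assoc, Finset.sum_mul]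
      congr 1
      refine Finset.sum_congr rfl fun χ' _ => ?_
      ring
    rw [Finset.sum_congr rfl fun g _ => h2 g, ← Finset.mul_sum, Finset.sum_comm]
    have h3 : ∀ χ', ∑ g, c χ' * (((χ g : ℂˣ) : ℂ) * (((χ' g : ℂˣ) : ℂ))⁻¹) =
        if χ = χ' then c χ' * Fintype.card G else 0 := by
      intro χ'
      rw [← Finset.mul_sum, orth]
      split_ifs
      · rfl
      · rw [mul_zero]
    rw [Finset.sum_congr rfl fun χ' _ => h3 χ', Finset.sum_ite_eq, if_pos (Finset.mem_univ _)]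
    field_simp

section
variable {F K : Type} [Field F] [NumberField F] [Field K] [NumberField K] [Algebra F K]
  [IsGalois F K]

open scoped Classical in
/-- **assembly** -/
theorem assemble {S : Finset (HeightOneSpectrum (𝓞 F))} {r : ℕ} {w : Fin r → Pl K}
    (X : ((K ≃ₐ[F] K) →* ℂˣ) → Prop) (hX : ∀ (σ : ℂ ≃+* ℂ) χ, X χ → X (cj σ χ)) {m : ℕ}
    (h : ∀ χ, X χ → GoodM m S w χ) :
    ∃ (n : ℕ) (a : Fin n → (K ≃ₐ[F] K) → ℚ) (u : Fin n → Fin r → K)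
      (c : ((K ≃ₐ[F] K) →* ℂˣ) → ℂ),
      (∀ k j, IsUnt (abv K S) (u k j)) ∧ (∀ χ, ¬ X χ → ∀ k, ∑ g, (a k g : ℂ) * cf χ g = 0) ∧
      (∀ χ, X χ → c χ ≠ 0) ∧ (∀ χ, ¬ X χ → c χ = 0) ∧
      (∀ (σ : ℂ ≃+* ℂ) χ, σ (c χ) ^ m = c (cj σ χ) ^ m) ∧
      ∀ χ, (if X χ then lead S χ else 0) =
        c χ * ∑ k, (∑ g, (a k g : ℂ) * cf χ g) * (ellM χ (u k) w).det := by
  let s : Setoid ((K ≃ₐ[F] K) →* ℂˣ) := ⟨fun χ χ' => ∃ σ : ℂ ≃+* ℂ, χ' = cj σ χ,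
    fun χ => ⟨RingEquiv.refl ℂ, (cj_refl χ).symm⟩,
    fun {χ χ'} ⟨σ, h⟩ => ⟨σ.symm, by rw [h, cj_symm]⟩,
    fun {χ χ' χ''} ⟨σ, h⟩ ⟨τ, h'⟩ => ⟨σ.trans τ, by rw [h', h, cj_cj]⟩⟩
  have hmk : ∀ (σ : ℂ ≃+* ℂ) χ, Quotient.mk s (cj σ χ) = Quotient.mk s χ := fun σ χ =>
    (Quotient.sound (s := s) (show s.r χ (cj σ χ) from ⟨σ, rfl⟩)).symm
  let rep : ((K ≃ₐ[F] K) →* ℂˣ) → ((K ≃ₐ[F] K) →* ℂˣ) := fun χ => (Quotient.mk s χ).out
  have hrep : ∀ χ, ∃ σ : ℂ ≃+* ℂ, χ = cj σ (rep χ) := fun χ => Quotient.mk_out (s := s) χ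
  have hrepc : ∀ (σ : ℂ ≃+* ℂ) χ, rep (cj σ χ) = rep χ := by
    intro σ χ
    change (Quotient.mk s (cj σ χ)).out = (Quotient.mk s χ).out
    rw [hmk]
  have hXc : ∀ (σ : ℂ ≃+* ℂ) χ, X (cj σ χ) ↔ X χ := fun σ χ =>
    ⟨fun h1 => by
      have h2 := hX σ.symm _ h1
      rwa [cj_symm] at h2, hX σ χ⟩
  have hXrep : ∀ χ, X χ ↔ X (rep χ) := by
    intro χ
    obtain ⟨σ, hσ⟩ := hrep χ
    conv_lhs => rw [hσ]
    exact hXc σ _
  -- the units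
  let Q : Type := {q : Quotient s // X q.out}
  have hfq : Finite Q := inferInstance
  have hQ := Fintype.ofFinite Q
  choose α hα hdet hst using fun q : Q => h q.1.out q.2
  let qq : ∀ χ, X χ → Q := fun χ hχ => ⟨Quotient.mk s χ, (hXrep χ).1 hχ⟩
  choose a ha using fun q : Q => fourier (G := K ≃ₐ[F] K)
    (fun χ => if Quotient.mk s χ = q.1 then (1 : ℂ) else 0) (fun σ χ => by
      simp only [hmk]
      split_ifs
      · rw [map_one]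
      · rw [map_zero])
  have hrat : ∀ (χ : (K ≃ₐ[F] K) →* ℂˣ) (hχ : X χ) (σ : ℂ ≃+* ℂ),
      σ (rat S w (α (qq χ hχ)) χ) ^ m = rat S w (α (qq χ hχ)) (cj σ χ) ^ m := by
    intro χ hχ σ
    obtain ⟨τ, hτ⟩ := hrep χ
    have h1 := hst (qq χ hχ) τ
    have h2 := hst (qq χ hχ) (τ.trans σ)
    change τ (rat S w (α (qq χ hχ)) (rep χ)) ^ m =
      rat S w (α (qq χ hχ)) (cj τ (rep χ)) ^ m at h1
    change σ (τ (rat S w (α (qq χ hχ)) (rep χ))) ^ m =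
      rat S w (α (qq χ hχ)) (cj (τ.trans σ) (rep χ)) ^ m at h2
    rw [← hτ] at h1
    rw [← cj_cj, ← hτ] at h2
    rw [← h2, ← map_pow, ← map_pow, ← h1]
  have hdet' : ∀ (χ : (K ≃ₐ[F] K) →* ℂˣ) (hχ : X χ), (ellM χ (α (qq χ hχ)) w).det ≠ 0 := by
    intro χ hχ
    obtain ⟨τ, hτ⟩ := hrep χ
    have h1 := hdet (qq χ hχ) τ
    change (ellM (cj τ (rep χ)) (α (qq χ hχ)) w).det ≠ 0 at h1
    rwa [← hτ] at h1
  let c : ((K ≃ₐ[F] K) →* ℂˣ) → ℂ := fun χ =>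
    if hχ : X χ then (rat S w (α (qq χ hχ)) χ)⁻¹ else 0
  let e := Fintype.equivFin Q
  refine ⟨Fintype.card Q, fun k => a (e.symm k), fun k => α (e.symm k), c,
    fun k j => hα _ j, fun χ hχ k => ?_, fun χ hχ => ?_, fun χ hχ => dif_neg hχ,
    fun σ χ => ?_, fun χ => ?_⟩
  · have h1 := ha (e.symm k) χ
    refine h1.symm.trans (if_neg fun h2 => hχ ?_)
    rw [hXrep χ]
    change X (Quotient.mk s χ).out
    rw [h2]
    exact (e.symm k).2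
  · change (if hχ : X χ then (rat S w (α (qq χ hχ)) χ)⁻¹ else 0) ≠ 0
    rw [dif_pos hχ]
    exact inv_ne_zero (div_ne_zero (hdet' χ hχ) (lead_ne' S χ))
  · change σ (if hχ : X χ then (rat S w (α (qq χ hχ)) χ)⁻¹ else 0) ^ m =
      (if hχ : X (cj σ χ) then (rat S w (α (qq (cj σ χ) hχ)) (cj σ χ))⁻¹ else 0) ^ m
    by_cases hχ : X χ
    · have hχ' := hX σ χ hχ
      rw [dif_pos hχ, dif_pos hχ', map_inv₀, inv_pow, inv_pow, hrat χ hχ σ]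
      congr 4
      exact Subtype.ext (hmk σ χ).symm
    · rw [dif_neg hχ, dif_neg fun h1 => hχ ((hXc σ χ).1 h1), map_zero]
  · by_cases hχ : X χ
    · rw [if_pos hχ]
      change _ = (if hχ : X χ then (rat S w (α (qq χ hχ)) χ)⁻¹ else 0) * _
      rw [dif_pos hχ]
      have h1 : ∑ k, (∑ g, (a (e.symm k) g : ℂ) * cf χ g) * (ellM χ (α (e.symm k)) w).det =
          (ellM χ (α (qq χ hχ)) w).det := by
        have h2 : ∀ q : Q, (∑ g, (a q g : ℂ) * cf χ g) * (ellM χ (α q) w).det =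
            if q = qq χ hχ then (ellM χ (α (qq χ hχ)) w).det else 0 := by
          intro q
          have h3 := ha q χ
          change (if Quotient.mk s χ = q.1 then (1 : ℂ) else 0) = ∑ g, (a q g : ℂ) * cf χ g at h3
          rw [← h3]
          by_cases h4 : q = qq χ hχ
          · rw [if_pos h4, h4, if_pos rfl, one_mul]
          · rw [if_neg h4, if_neg fun h5 => h4 (Subtype.ext h5.symm), zero_mul]
        rw [e.symm.sum_comp fun q => (∑ g, (a q g : ℂ) * cf χ g) * (ellM χ (α q) w).det,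
          Finset.sum_congr rfl fun q _ => h2 q, Finset.sum_ite_eq', if_pos (Finset.mem_univ _)]
      rw [h1]
      unfold rat
      rw [inv_div, div_mul_cancel₀ _ (hdet' χ hχ)]
    · rw [if_neg hχ]
      change _ = (if hχ : X χ then (rat S w (α (qq χ hχ)) χ)⁻¹ else 0) * _
      rw [dif_neg hχ, zero_mul]

open scoped Classical in
/-- the rational case -/
theorem assemble_rat {S : Finset (HeightOneSpectrum (𝓞 F))} {r : ℕ} {w : Fin r → Pl K}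
    (X : ((K ≃ₐ[F] K) →* ℂˣ) → Prop) (hX : ∀ (σ : ℂ ≃+* ℂ) χ, X χ → X (cj σ χ))
    (h : ∀ χ, X χ → GoodM 1 S w χ) :
    ∃ (n : ℕ) (a : Fin n → (K ≃ₐ[F] K) → ℚ) (u : Fin n → Fin r → K),
      (∀ k j, IsUnt (abv K S) (u k j)) ∧ (∀ χ, ¬ X χ → ∀ k, ∑ g, (a k g : ℂ) * cf χ g = 0) ∧
      ∀ χ, (if X χ then lead S χ else 0) =
        ∑ k, (∑ g, (a k g : ℂ) * cf χ g) * (ellM χ (u k) w).det := by
  obtain ⟨n, a, u, c, hu, hz, -, hc0, hc, hv⟩ := assemble X hX h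
  choose a' ha' using fun k => fourier (G := K ≃ₐ[F] K)
    (fun χ => c χ * ∑ g, (a k g : ℂ) * cf χ g) (fun σ χ => by
      have h1 := hc σ χ
      rw [pow_one, pow_one] at h1
      rw [map_mul, h1, map_sum]
      congr 1
      refine Finset.sum_congr rfl fun g _ => ?_
      rw [map_mul, map_ratCast]
      rfl)
  have ha'' : ∀ k χ, ∑ g, (a' k g : ℂ) * cf χ g = c χ * ∑ g, (a k g : ℂ) * cf χ g :=
    fun k χ => (ha' k χ).symm
  refine ⟨n, a', u, hu, fun χ hχ k => ?_, fun χ => ?_⟩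
  · rw [ha'', hc0 χ hχ, zero_mul]
  · rw [hv χ, Finset.mul_sum]
    refine Finset.sum_congr rfl fun k _ => ?_
    rw [ha'', mul_assoc]

open scoped Classical in
/-- the case of roots of unity -/
theorem assemble_roots {S : Finset (HeightOneSpectrum (𝓞 F))} {r : ℕ} {w : Fin r → Pl K}
    (X : ((K ≃ₐ[F] K) →* ℂˣ) → Prop) (hX : ∀ (σ : ℂ ≃+* ℂ) χ, X χ → X (cj σ χ)) {m : ℕ}
    (hm : 0 < m) (h : ∀ χ, X χ → GoodM m S w χ) :
    ∃ (n : ℕ) (a : Fin n → (K ≃ₐ[F] K) → ℚ) (u : Fin n → Fin r → K)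
      (c : (K ≃ₐ[F] K) → ℂ) (b : (K ≃ₐ[F] K) → ℚ),
      (∀ k j, IsUnt (abv K S) (u k j)) ∧ (∀ χ, ¬ X χ → ∀ k, ∑ g, (a k g : ℂ) * cf χ g = 0) ∧
      (∀ g, IsAlgebraic ℚ (c g)) ∧
      (∀ χ, (∑ g, c g * cf χ g) ^ m = ∑ g, (b g : ℂ) * cf χ g) ∧
      ∀ χ, (if X χ then lead S χ else 0) =
        (∑ g, c g * cf χ g) * ∑ k, (∑ g, (a k g : ℂ) * cf χ g) * (ellM χ (u k) w).det := by
  obtain ⟨n, a, u, c, hu, hz, -, hc0, hc, hv⟩ := assemble X hX h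
  obtain ⟨b, hb⟩ := fourier (G := K ≃ₐ[F] K) (fun χ => c χ ^ m) (fun σ χ => by
    rw [map_pow, hc σ χ])
  have hb' : ∀ χ, c χ ^ m = ∑ g, (b g : ℂ) * cf χ g := hb
  have hint : ∀ (χ : (K ≃ₐ[F] K) →* ℂˣ) g, IsIntegral ℚ (cf χ g) := by
    intro χ g
    refine IsIntegral.of_pow (n := Fintype.card (K ≃ₐ[F] K)) Fintype.card_pos ?_
    have h2 : cf χ g ^ Fintype.card (K ≃ₐ[F] K) = 1 := by
      unfold cf
      rw [← Units.val_pow_eq_pow_val, ← map_pow, pow_card_eq_one, map_one, Units.val_one]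
    rw [h2]
    exact isIntegral_one
  have halg : ∀ χ, IsAlgebraic ℚ (c χ) := by
    intro χ
    refine (IsIntegral.of_pow hm ?_).isAlgebraic
    rw [hb' χ]
    refine IsIntegral.sum _ fun g _ => ?_
    refine IsIntegral.mul ?_ (hint χ g)
    exact isIntegral_algebraMap (R := ℚ) (A := ℂ) (x := b g)
  obtain ⟨c', hc', hc''⟩ := fourierC c halg
  have hcc : ∀ χ, ∑ g, c' g * cf χ g = c χ := fun χ => (hc'' χ).symm
  refine ⟨n, a, u, c', b, hu, hz, hc', fun χ => ?_, fun χ => ?_⟩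
  · rw [hcc, hb']
  · rw [hcc, hv χ]

/-- the trivial character -/
theorem good_one {S : Finset (HeightOneSpectrum (𝓞 F))}
    (hS : ∀ p : HeightOneSpectrum (𝓞 F), ¬ Unrm K p → p ∈ S) {r : ℕ} {w : Fin r → Pl K}
    (hmem : ∀ i, InPl (abv K S) (w i))
    (hdist : ∀ (i j : Fin r) (g : K ≃ₐ[F] K), pact g (w i) = w j → i = j)
    (hmore : ∃ v : Pl K, InPl (abv K S) v ∧ ∀ (i : Fin r) (g : K ≃ₐ[F] K), pact g (w i) ≠ v)
    {v₀ : Pl K} (hv₀ : ∀ v : Pl K, InPl (abv K S) v → (∃ g : K ≃ₐ[F] K, pact g v₀ = v) ∨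
      ∃ (i : Fin r) (g : K ≃ₐ[F] K), pact g (w i) = v)
    {χ : (K ≃ₐ[F] K) →* ℂˣ} (hχ : ∀ g, χ g = 1) : GoodM 1 S w χ := by
  classical
  have hT := stable_abv orb (K := K) S
  have hR := ram_abv orb hS
  have hχ1 : χ = 1 := MonoidHom.ext hχ
  subst hχ1
  obtain ⟨v, hv, hns⟩ := hmore
  obtain ⟨g₀, hg₀⟩ : ∃ g : K ≃ₐ[F] K, pact g v₀ = v := by
    rcases hv₀ v hv with h | ⟨i, g, h⟩
    · exact h
    · exact absurd h (hns i g)
  have hv₀' : v₀ = pact g₀⁻¹ v := by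
    rw [← hg₀, ← pact_mul, inv_mul_cancel, pact_one]
  have hin : InPl (abv K S) v₀ := by
    rw [hv₀']
    exact inPl_pact hT _ hv
  obtain ⟨θ⟩ := exi F K (abv K S) hT
  obtain ⟨q, α, hq, hα, hreg⟩ := Pool.Agent.Q176.SI.rgt F K (abv K S) hT θ (Fin r) w v₀ hin hmem
    (fun i g h => hns i (g₀ * g) (by rw [pact_mul, h, hg₀])) hdist hv₀
  obtain ⟨q₁, hq₁, h1⟩ := triv_lead (M := K) orb Pool.Agent.Q123.SI.lfn cn0 hT hR
    (χ := cf (1 : (K ≃ₐ[F] K) →* ℂˣ)) (fun _ => rfl)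
  obtain ⟨q₂, hq₂, h2⟩ := triv_reg orb exi Pool.Agent.Q223.SI.rga Pool.Agent.Q223.SI.rgb θ 1
    (linRep 1) (linRep_char _)
  have h3 := hreg 1 (linRep 1) (linRep_char _)
  rw [h2] at h3
  have hn := reg_log_ne (E := F) (S := (abv K S).image fun P => P.under (𝓞 F))
  have hqc : (q : ℂ) ≠ 0 := by exact_mod_cast hq
  have hq1c : (q₁ : ℂ) ≠ 0 := by exact_mod_cast hq₁
  have hq2c : (q₂ : ℂ) ≠ 0 := by exact_mod_cast hq₂
  have hcj : ∀ σ : ℂ ≃+* ℂ, cj σ (1 : (K ≃ₐ[F] K) →* ℂˣ) = 1 := by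
    intro σ
    ext g
    exact map_one σ
  have hd0 : (ellM (1 : (K ≃ₐ[F] K) →* ℂˣ) α w).det ≠ 0 := by
    intro h0
    rw [h0, mul_zero, mul_assoc] at h3
    exact mul_ne_zero hq2c hn h3
  have hrat : rat S w α (1 : (K ≃ₐ[F] K) →* ℂˣ) = (q₂ : ℂ) / q / q₁ := by
    unfold rat lead
    rw [h1]
    rw [mul_assoc] at h3 ⊢
    rw [div_eq_div_iff (mul_ne_zero hq1c hn) hq1c]
    have h4 : (ellM (1 : (K ≃ₐ[F] K) →* ℂˣ) α w).det = (q₂ : ℂ) / q *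
        (((Units.regulator F : ℝ) : ℂ) * ∏ v ∈ (abv K S).image fun P => P.under (𝓞 F),
          ((Real.log (Ideal.absNorm v.asIdeal) : ℝ) : ℂ)) := by
      field_simp
      linear_combination -h3
    rw [h4]
    ring
  refine ⟨α, hα, fun σ => ?_, fun σ => ?_⟩
  · rw [hcj]
    exact hd0
  · rw [hcj, hrat, map_div₀, map_div₀, map_ratCast, map_ratCast, map_ratCast]

/-- `GoodM` for a multiple -/
theorem GoodM.mul {S : Finset (HeightOneSpectrum (𝓞 F))} {ι : Type} [Fintype ι] [DecidableEq ι]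
    {w : ι → Pl K} {χ : (K ≃ₐ[F] K) →* ℂˣ} {m n : ℕ} (h : GoodM m S w χ) (hd : m ∣ n) :
    GoodM n S w χ := by
  obtain ⟨k, rfl⟩ := hd
  obtain ⟨α, h1, h2, h3⟩ := h
  exact ⟨α, h1, h2, fun σ => by rw [pow_mul, pow_mul, h3]⟩

end

end Pool.Agent.H78.SI
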