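import Pool.Graph.R_pool_sql_team_seeded_3997aac3.Q246.Unram2
import Pool.Graph.R_pool_sql_team_seeded_3997aac3.Q20.SI.Stm3
import Pool.Graph.R_pool_sql_team_seeded_3997aac3.Q20.RS.Cnt
import Pool.Graph.R_seed8.Y772.FE.Gam

/-!
# The class number formula at `s = 0`, up to a rational number
-/

set_option autoImplicit false
set_option linter.unusedSectionVars false

namespace Pool.Agent.H78.SI

open NumberField IsDedekindDomain Complex Filter Topology
open Pool.Agent.Q20.RS Pool.Agent.Q20.SI Pool.Agent.Q246.Unr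
open Pool.Agent.Y773 (LI GG)
open Pool.Agent.Y773.G (ex sg)

section
variable (F : Type) [Field F] [NumberField F]

open Classical in
/-- the trivial character of the ideals -/
noncomputable def ps0 : Ideal (𝓞 F) →*₀ ℂ where
  toFun I := if I = ⊥ then 0 else 1
  map_zero' := if_pos rfl
  map_one' := if_neg (one_ne_zero : (1 : Ideal (𝓞 F)) ≠ 0)
  map_mul' I J := by
    by_cases hI : I = ⊥
    · subst hI
      rw [Ideal.bot_mul, if_pos rfl, zero_mul]
    by_cases hJ : J = ⊥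
    · subst hJ
      rw [Ideal.mul_bot, if_pos rfl, mul_zero]
    have hIJ : I * J ≠ ⊥ := by
      rw [Ne, Ideal.mul_eq_bot]
      tauto
    rw [if_neg hI, if_neg hJ, if_neg hIJ, one_mul]

theorem ps0_of_ne {I : Ideal (𝓞 F)} (h : I ≠ ⊥) : ps0 F I = 1 := by
  classical
  exact if_neg h

theorem sg_zero (x : F) : sg (fun _ => 0) x = 1 := by
  unfold sg
  simp

theorem uc0 : UC (fun _ => 0) (ps0 F) where
  he := fun _ => Nat.zero_le _
  cpx := fun _ _ => rfl
  ne := fun I hI => by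
    rw [ps0_of_ne F hI]
    exact one_ne_zero
  sig := fun x hx => by
    rw [sg_zero, ps0_of_ne F]
    rwa [Ne, Ideal.span_singleton_eq_bot]

theorem triv0 : Pool.Agent.Q246.Unr.Triv (ps0 F) := fun _ h => ps0_of_ne F h

theorem LI_eq {s : ℂ} (hs : 1 < s.re) : LI (ps0 F) s = dedekindZeta F s := by
  classical
  rw [← (Pool.Agent.Q92.AR.gI_hasSum (F := F) hs).tsum_eq]
  unfold LI
  refine tsum_congr fun I => ?_
  unfold Pool.Agent.Q92.AR.gI
  by_cases hI : I = ⊥
  · subst hI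
    rw [if_pos rfl]
    have h : ps0 F (⊥ : Ideal (𝓞 F)) = 0 := map_zero (ps0 F)
    rw [h, zero_mul]
  · rw [ps0_of_ne F hI, if_neg hI, one_mul]

theorem art_eq {s : ℂ} (hs : 1 < s.re) :
    artinLS (F := F) (M := F) ∅ (fun _ => 1) s = dedekindZeta F s := by
  classical
  rw [Pool.Agent.Q92.AR.zeta_eq_LP (F := F) hs]
  unfold artinLS Pool.Agent.Q92.AR.LP
  congr 1
  refine tsum_congr fun x => ?_
  unfold lTerm Pool.Agent.Q92.AR.lterm
  rw [if_neg (by rintro ⟨w, hw, -⟩; exact absurd hw (Finset.notMem_empty w)),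
    if_pos (Set.mem_univ _), one_pow]

theorem zeta_conj {s : ℂ} (hs : 1 < s.re) :
    (starRingEnd ℂ) (dedekindZeta F ((starRingEnd ℂ) s)) = dedekindZeta F s := by
  classical
  have hs' : 1 < ((starRingEnd ℂ) s).re := by rwa [Complex.conj_re]
  rw [← (Pool.Agent.Q92.AR.gI_hasSum (F := F) hs).tsum_eq,
    ← (Pool.Agent.Q92.AR.gI_hasSum (F := F) hs').tsum_eq, Complex.conj_tsum]
  refine tsum_congr fun I => ?_
  unfold Pool.Agent.Q92.AR.gI
  split_ifs with hI
  · exact map_zero _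
  · have h0 : 0 < (Ideal.absNorm I : ℝ) := by
      exact_mod_cast Nat.pos_of_ne_zero fun h => hI (Ideal.absNorm_eq_zero_iff.1 h)
    have h1 := Pool.Agent.W820.TW.conj_real_cpow h0 (-(starRingEnd ℂ) s)
    rw [Complex.ofReal_natCast] at h1
    rw [h1, map_neg, Complex.conj_conj]

theorem ex_le (φ : F →+* ℂ) : ex (fun _ => 0) φ ≤ 1 := by
  classical
  unfold ex
  split_ifs
  · exact Nat.zero_le _
  · exact Nat.zero_le _
  · exact le_refl _

theorem ex_one_iff (φ : F →+* ℂ) : ex (fun _ => 0) φ = 1 ↔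
    (InfinitePlace.mk φ).IsComplex ∧ (InfinitePlace.mk φ).embedding ≠ φ := by
  classical
  unfold ex
  rw [← InfinitePlace.not_isReal_iff_isComplex]
  split_ifs with h1 h2
  · simp [h1]
  · simp [h2]
  · simp [h1, h2]

/-- the number of the gamma factors `Γ_ℝ(s + 1)` is the number of complex places -/
theorem sum_ex : ∑ φ : F →+* ℂ, ex (fun _ => 0) φ = InfinitePlace.nrComplexPlaces F := by
  classical
  have h1 : ∀ φ : F →+* ℂ, ex (fun _ => 0) φ = if ex (fun _ => 0) φ = 1 then 1 else 0 := by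
    intro φ
    have := ex_le F φ
    split_ifs with h
    · exact h
    · omega
  rw [Finset.sum_congr rfl fun φ _ => h1 φ, Finset.sum_boole, Nat.cast_id]
  rw [InfinitePlace.nrComplexPlaces, ← Fintype.card_subtype]
  refine Fintype.card_of_bijective (f := fun φ : {φ : F →+* ℂ // ex (fun _ => 0) φ = 1} =>
    (⟨InfinitePlace.mk φ.1, ((ex_one_iff F φ.1).1 φ.2).1⟩ : {w : InfinitePlace F // w.IsComplex}))
    ⟨?_, ?_⟩
  · rintro ⟨φ, hφ⟩ ⟨φ', hφ'⟩ h
    have h2 : InfinitePlace.mk φ = InfinitePlace.mk φ' := congrArg Subtype.val h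
    have h3 : ∀ φ : F →+* ℂ, ex (fun _ => 0) φ = 1 →
        φ = ComplexEmbedding.conjugate (InfinitePlace.mk φ).embedding := by
      intro φ hφ
      have h4 := InfinitePlace.mk_embedding (InfinitePlace.mk φ)
      rcases InfinitePlace.mk_eq_iff.1 h4 with h5 | h5
      · exact absurd h5 ((ex_one_iff F φ).1 hφ).2
      · exact h5.symm
    apply Subtype.ext
    change φ = φ'
    rw [h3 φ hφ, h3 φ' hφ', h2]
  · rintro ⟨w, hw⟩
    have h2 : InfinitePlace.mk (ComplexEmbedding.conjugate w.embedding) = w := by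
      rw [InfinitePlace.mk_conjugate_eq, InfinitePlace.mk_embedding]
    refine ⟨⟨ComplexEmbedding.conjugate w.embedding, (ex_one_iff F _).2 ⟨?_, ?_⟩⟩,
      Subtype.ext h2⟩
    · rw [h2]
      exact hw
    · rw [h2]
      intro h3
      have h4 : ComplexEmbedding.IsReal w.embedding := h3.symm
      exact (InfinitePlace.isComplex_iff.1 hw) h4

/-- the product of the inverse gamma factors -/
noncomputable def HH (s : ℂ) : ℂ := ∏ φ : F →+* ℂ, (Gammaℝ (s + ex (fun _ => 0) φ))⁻¹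

theorem HH_diff : Differentiable ℂ (HH F) := by
  unfold HH
  refine Differentiable.fun_finsetProd fun φ _ => ?_
  exact differentiable_Gammaℝ_inv.comp (by fun_prop)

theorem GG_mul {D : ℝ} (hD : 0 < D) {s : ℂ} (hs : 1 < s.re) :
    GG D (ex (K := F) fun _ => 0) s * ((D : ℂ) ^ (-(s / 2)) * HH F s) = 1 := by
  unfold GG HH
  have h1 : (D : ℂ) ^ (s / 2) * (D : ℂ) ^ (-(s / 2)) = 1 := by
    rw [← Complex.cpow_add _ _ (by exact_mod_cast hD.ne'), add_neg_cancel, Complex.cpow_zero]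
  have h2 : (∏ φ : F →+* ℂ, Gammaℝ (s + ex (fun _ => 0) φ)) *
      ∏ φ : F →+* ℂ, (Gammaℝ (s + ex (fun _ => 0) φ))⁻¹ = 1 := by
    rw [← Finset.prod_mul_distrib]
    refine Finset.prod_eq_one fun φ _ => mul_inv_cancel₀ ?_
    refine Gammaℝ_ne_zero_of_re_pos ?_
    rw [Complex.add_re, Complex.natCast_re]
    positivity
  calc _ = ((D : ℂ) ^ (s / 2) * (D : ℂ) ^ (-(s / 2))) * ((∏ φ : F →+* ℂ,
        Gammaℝ (s + ex (fun _ => 0) φ)) *
      ∏ φ : F →+* ℂ, (Gammaℝ (s + ex (fun _ => 0) φ))⁻¹) := by ring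
    _ = 1 := by rw [h1, h2, one_mul]

/-- `(Γ_ℝ(s + e))⁻¹` without the zero at `s = 0` -/
noncomputable def h0 (φ : F →+* ℂ) (s : ℂ) : ℂ :=
  if ex (fun _ => 0) φ = 1 then (Gammaℝ (s + 1))⁻¹ else (2 * (Real.pi : ℂ))⁻¹ * (Gammaℝ (s + 2))⁻¹

theorem h0_diff (φ : F →+* ℂ) : Differentiable ℂ (h0 F φ) := by
  unfold h0
  split_ifs
  · exact differentiable_Gammaℝ_inv.comp (by fun_prop)
  · exact (differentiable_Gammaℝ_inv.comp (by fun_prop)).const_mul _

theorem h0_zero (φ : F →+* ℂ) : h0 F φ 0 = if ex (fun _ => 0) φ = 1 then 1 else (2 : ℂ)⁻¹ := by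
  unfold h0
  split_ifs
  · rw [zero_add, Gammaℝ_one, inv_one]
  · have h1 : Gammaℝ (0 + 2) = (Real.pi : ℂ)⁻¹ := by
      rw [zero_add, Gammaℝ_def]
      have h2 : (-2 / 2 : ℂ) = -1 := by norm_num
      have h3 : (2 / 2 : ℂ) = 1 := by norm_num
      rw [h2, h3, Complex.Gamma_one, mul_one, Complex.cpow_neg_one]
    rw [h1, inv_inv]
    have h4 : (Real.pi : ℂ) ≠ 0 := by exact_mod_cast Real.pi_ne_zero
    field_simp

/-- the number of the gamma factors `Γ_ℝ(s)` -/
noncomputable def n0 : ℕ := ∑ φ : F →+* ℂ, (1 - ex (fun _ => 0) φ)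

theorem HH_eq {s : ℂ} (hs : s ≠ 0) : HH F s = s ^ n0 F * ∏ φ : F →+* ℂ, h0 F φ s := by
  unfold HH n0
  rw [← Finset.prod_pow_eq_pow_sum, ← Finset.prod_mul_distrib]
  refine Finset.prod_congr rfl fun φ _ => ?_
  unfold h0
  have h1 := ex_le F φ
  split_ifs with h
  · rw [h, Nat.cast_one]
    simp
  · have h2 : ex (fun _ => 0) φ = 0 := by omega
    rw [h2, Gammaℝ_add_two hs]
    have h4 : (Real.pi : ℂ) ≠ 0 := by exact_mod_cast Real.pi_ne_zero
    simp only [Nat.cast_zero, add_zero, Nat.sub_zero, pow_one]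
    by_cases h5 : Gammaℝ s = 0
    · rw [h5]
      simp
    · field_simp

theorem HH_one : HH F 1 = ((Real.pi ^ InfinitePlace.nrComplexPlaces F : ℝ) : ℂ) := by
  unfold HH
  rw [← sum_ex, Complex.ofReal_pow, ← Finset.prod_pow_eq_pow_sum]
  refine Finset.prod_congr rfl fun φ _ => ?_
  have h1 := ex_le F φ
  by_cases h : ex (fun _ => 0) φ = 1
  · rw [h, pow_one, Nat.cast_one]
    have h2 : Gammaℝ (1 + 1) = (Real.pi : ℂ)⁻¹ := by
      rw [Gammaℝ_def]
      have h2 : (-(1 + 1) / 2 : ℂ) = -1 := by norm_num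
      have h3 : ((1 + 1) / 2 : ℂ) = 1 := by norm_num
      rw [h2, h3, Complex.Gamma_one, mul_one, Complex.cpow_neg_one]
    rw [h2, inv_inv]
  · have h2 : ex (fun _ => 0) φ = 0 := by omega
    rw [h2, pow_zero, Nat.cast_zero, add_zero, Gammaℝ_one, inv_one]

end

/-- **JOB CN0.** -/
theorem cn0 : S_CN0 := by
  intro F _ _
  classical
  obtain ⟨U, w, hU, hw, hval, hfe, -⟩ := (uc0 F).fe
  set D : ℝ := (Ideal.absNorm (differentIdeal ℤ (𝓞 F)) : ℝ) with hD
  have hDd : D = |(discr F : ℝ)| := by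
    rw [hD, absNorm_differentIdeal F]
    rw [Nat.cast_natAbs, Int.cast_abs]
  have hD0 : 0 < D := by
    rw [hDd]
    exact abs_pos.mpr (Int.cast_ne_zero.mpr (discr_ne_zero F))
  have hDc : (D : ℂ) ≠ 0 := by exact_mod_cast hD0.ne'
  have hval' : ∀ s : ℂ, 1 < s.re →
      U s = s * (s - 1) * (GG D (ex (K := F) fun _ => 0) s * dedekindZeta F s) := by
    intro s hs
    have h1 := hval s hs
    rw [if_pos (triv0 F), pow_one, LI_eq F hs] at h1
    exact h1
  have hkey : ∀ s : ℂ, 1 < s.re →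
      U s * ((D : ℂ) ^ (-(s / 2)) * HH F s) = s * (s - 1) * dedekindZeta F s := by
    intro s hs
    rw [hval' s hs]
    linear_combination (s * (s - 1) * dedekindZeta F s) * GG_mul F hD0 hs
  have hpow : Differentiable ℂ fun s : ℂ => (D : ℂ) ^ (-(s / 2)) := fun s =>
    DifferentiableAt.const_cpow (by fun_prop) (Or.inl hDc)
  -- reality
  have hreal : ∀ s, (starRingEnd ℂ) (U ((starRingEnd ℂ) s)) = U s := by
    have hd2 : Differentiable ℂ fun s : ℂ => (starRingEnd ℂ) (U ((starRingEnd ℂ) s)) := by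
      intro s
      have h4 := (hU ((starRingEnd ℂ) s)).hasDerivAt.conj_conj
      rw [Complex.conj_conj] at h4
      exact h4.differentiableAt
    have h5 := Pool.Agent.Y773.entire_eq hd2 hU fun s hs => by
      have hs' : 1 < ((starRingEnd ℂ) s).re := by rwa [Complex.conj_re]
      change (starRingEnd ℂ) (U ((starRingEnd ℂ) s)) = U s
      rw [hval' _ hs', hval' s hs]
      simp only [map_mul, map_sub, map_one, Complex.conj_conj]
      rw [Pool.Agent.Y772.FE.conj_GG hD0, Complex.conj_conj, zeta_conj F hs]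
    exact fun s => congrFun h5 s
  -- the value at `1`
  have hU1 : U 1 * ((D : ℂ) ^ (-(1 / 2 : ℂ)) * HH F 1) = (dedekindZeta_residue F : ℂ) := by
    have h1 : Tendsto (fun s : ℝ => U s * ((D : ℂ) ^ (-((s : ℂ) / 2)) * HH F s) / (s : ℂ))
        (𝓝[>] 1) (𝓝 (U 1 * ((D : ℂ) ^ (-(1 / 2 : ℂ)) * HH F 1))) := by
      have h2 : ContinuousAt (fun s : ℝ => U s * ((D : ℂ) ^ (-((s : ℂ) / 2)) * HH F s) / (s : ℂ))
          1 := by
        have h3 : ContinuousAt (fun s : ℂ => U s * ((D : ℂ) ^ (-(s / 2)) * HH F s) / s)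
            ((1 : ℝ) : ℂ) := by
          refine ContinuousAt.div ?_ continuousAt_id (by norm_num)
          exact (hU.continuous.mul (hpow.continuous.mul (HH_diff F).continuous)).continuousAt
        exact ContinuousAt.comp (f := fun x : ℝ => (x : ℂ)) (x := (1 : ℝ)) h3
          Complex.continuous_ofReal.continuousAt
      have h4 := h2.tendsto.mono_left (nhdsWithin_le_nhds (s := Set.Ioi (1 : ℝ)))
      simpa using h4
    have h2 := tendsto_sub_one_mul_dedekindZeta_nhdsGT F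
    refine tendsto_nhds_unique h1 (h2.congr' ?_)
    filter_upwards [self_mem_nhdsWithin] with s hs
    have h3 : 1 < (s : ℂ).re := by rw [Complex.ofReal_re]; exact hs
    rw [hkey _ h3]
    have h4 : (s : ℂ) ≠ 0 := by
      have : (0 : ℝ) < s := lt_trans zero_lt_one hs
      exact_mod_cast this.ne'
    field_simp
  -- `U 1` is a rational multiple of the regulator
  set q1 : ℚ := 2 ^ InfinitePlace.nrRealPlaces F * 2 ^ InfinitePlace.nrComplexPlaces F *
    (classNumber F : ℚ) / (Units.torsionOrder F : ℚ) with hq1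
  have hq10 : q1 ≠ 0 := by
    rw [hq1]
    have h1 : (classNumber F : ℚ) ≠ 0 := by
      exact_mod_cast (classNumber_pos F).ne'
    have h2 : (Units.torsionOrder F : ℚ) ≠ 0 := by
      exact_mod_cast (Units.torsionOrder_pos F).ne'
    positivity
  have hU1' : U 1 = (q1 : ℂ) * ((Units.regulator F : ℝ) : ℂ) := by
    have h1 : (D : ℂ) ^ (-(1 / 2 : ℂ)) = (((Real.sqrt D)⁻¹ : ℝ) : ℂ) := by
      rw [Real.sqrt_eq_rpow, ← Real.rpow_neg hD0.le, Complex.ofReal_cpow hD0.le]
      congr 1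
      push_cast
      ring
    rw [h1, HH_one, dedekindZeta_residue_def, ← hDd] at hU1
    have hs : Real.sqrt D ≠ 0 := (Real.sqrt_pos_of_pos hD0).ne'
    have hπ : (Real.pi ^ InfinitePlace.nrComplexPlaces F : ℝ) ≠ 0 := by positivity
    have ht : (Units.torsionOrder F : ℝ) ≠ 0 := by
      exact_mod_cast (Units.torsionOrder_pos F).ne'
    have h2 : U 1 = ((((2 : ℝ) ^ InfinitePlace.nrRealPlaces F *
        (2 * Real.pi) ^ InfinitePlace.nrComplexPlaces F * Units.regulator F * classNumber F) /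
        (Units.torsionOrder F * Real.sqrt D) * Real.sqrt D /
          (Real.pi ^ InfinitePlace.nrComplexPlaces F) : ℝ) : ℂ) := by
      have h3 : U 1 * ((((Real.sqrt D)⁻¹ * Real.pi ^ InfinitePlace.nrComplexPlaces F : ℝ)) : ℂ) =
          ((((2 : ℝ) ^ InfinitePlace.nrRealPlaces F *
        (2 * Real.pi) ^ InfinitePlace.nrComplexPlaces F * Units.regulator F * classNumber F) /
        (Units.torsionOrder F * Real.sqrt D) : ℝ) : ℂ) := by
        rw [← hU1]
        push_cast
        ring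
      have h4 : ((((Real.sqrt D)⁻¹ * Real.pi ^ InfinitePlace.nrComplexPlaces F : ℝ)) : ℂ) ≠ 0 := by
        exact_mod_cast mul_ne_zero (inv_ne_zero hs) hπ
      refine mul_right_cancel₀ h4 (h3.trans ?_)
      rw [← Complex.ofReal_mul]
      congr 1
      field_simp
    rw [h2, hq1, ← Complex.ofReal_ratCast, ← Complex.ofReal_mul]
    congr 1
    push_cast
    rw [mul_pow]
    field_simp
  have hR : ((Units.regulator F : ℝ) : ℂ) ≠ 0 := by
    exact_mod_cast (Units.regulator_pos F).ne'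
  have hU10 : U 1 ≠ 0 := by
    rw [hU1']
    exact mul_ne_zero (by exact_mod_cast hq10) hR
  -- the sign
  have hc1 : (starRingEnd ℂ) (U 1) = U 1 := by
    have h := hreal 1
    rwa [map_one] at h
  have hc0 : (starRingEnd ℂ) (U 0) = U 0 := by
    have h := hreal 0
    rwa [map_zero] at h
  have hU0 : U 0 = w * U 1 := by
    have h := hfe 0
    rwa [map_zero, sub_zero, hc1] at h
  have hU1w : U 1 = w * U 0 := by
    have h := hfe 1
    rwa [map_one, sub_self, hc0] at h
  have hw2 : w = 1 ∨ w = -1 := by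
    have h1 : (w * w) * U 1 = 1 * U 1 := by
      rw [one_mul, mul_assoc, ← hU0, ← hU1w]
    have h2 := mul_right_cancel₀ hU10 h1
    exact mul_self_eq_one_iff.1 h2
  obtain ⟨ε, hε0, hε⟩ : ∃ ε : ℚ, ε ≠ 0 ∧ w = (ε : ℂ) := by
    rcases hw2 with h | h
    · exact ⟨1, one_ne_zero, by rw [h, Rat.cast_one]⟩
    · exact ⟨-1, by norm_num, by rw [h, Rat.cast_neg, Rat.cast_one]⟩
  -- the continuation
  set f : ℂ → ℂ := fun s => (s * (s - 1))⁻¹ * (U s * ((D : ℂ) ^ (-(s / 2)) * HH F s)) with hf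
  have hconts : Pool.Agent.Q92.AR.Continues f (artinLS (F := F) (M := F) ∅ (fun _ => 1)) := by
    refine ⟨fun s _ => ?_, fun s hs => ?_⟩
    · have h1 : Differentiable ℂ fun s : ℂ => U s * ((D : ℂ) ^ (-(s / 2)) * HH F s) :=
        hU.mul (hpow.mul (HH_diff F))
      have h2 : Differentiable ℂ fun s : ℂ => s * (s - 1) := by fun_prop
      exact (h2.analyticAt s).meromorphicAt.fun_inv.fun_mul (h1.analyticAt s).meromorphicAt
    · rw [art_eq F hs, hf]
      simp only
      rw [hkey s hs]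
      have h1 : s ≠ 0 := by
        rintro rfl
        rw [Complex.zero_re] at hs
        linarith
      have h2 : s - 1 ≠ 0 := by
        intro h
        rw [sub_eq_zero.1 h, Complex.one_re] at hs
        exact lt_irrefl _ hs
      field_simp
  set g : ℂ → ℂ := fun s => (s - 1)⁻¹ * (U s * ((D : ℂ) ^ (-(s / 2)) * ∏ φ : F →+* ℂ, h0 F φ s))
    with hg
  have hgan : AnalyticAt ℂ g 0 := by
    have h1 : Differentiable ℂ fun s : ℂ =>
        U s * ((D : ℂ) ^ (-(s / 2)) * ∏ φ : F →+* ℂ, h0 F φ s) :=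
      hU.mul (hpow.mul (Differentiable.fun_finsetProd fun φ _ => h0_diff F φ))
    have h2 : AnalyticAt ℂ (fun s : ℂ => (s - 1)⁻¹) 0 := by
      refine AnalyticAt.inv (by fun_prop) ?_
      norm_num
    exact h2.mul (h1.analyticAt 0)
  set c0 : ℚ := ∏ φ : F →+* ℂ, (if ex (fun _ => 0) φ = 1 then 1 else (2 : ℚ)⁻¹) with hc
  have hc00 : c0 ≠ 0 := by
    rw [hc]
    refine Finset.prod_ne_zero_iff.2 fun φ _ => ?_
    split_ifs
    · exact one_ne_zero
    · norm_num
  have hg0 : g 0 = ((-(ε * q1 * c0) : ℚ) : ℂ) * ((Units.regulator F : ℝ) : ℂ) := by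
    have h1 : ∏ φ : F →+* ℂ, h0 F φ 0 = (c0 : ℂ) := by
      rw [hc, Rat.cast_prod]
      refine Finset.prod_congr rfl fun φ _ => ?_
      rw [h0_zero]
      split_ifs <;> simp
    rw [hg]
    simp only
    rw [h1, hU0, hU1', hε]
    simp only [zero_div, neg_zero, Complex.cpow_zero]
    push_cast
    ring
  have hg00 : g 0 ≠ 0 := by
    rw [hg0]
    refine mul_ne_zero ?_ hR
    exact_mod_cast neg_ne_zero.2 (mul_ne_zero (mul_ne_zero hε0 hq10) hc00)
  refine ⟨-(ε * q1 * c0), neg_ne_zero.2 (mul_ne_zero (mul_ne_zero hε0 hq10) hc00), ?_⟩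
  rw [← hg0]
  have h1 : leading (F := F) (M := F) ∅ (fun _ => 1) = meromorphicTrailingCoeffAt f 0 :=
    meromorphicTrailingCoeffAt_congr_nhdsNE
      ((Pool.Agent.Q92.AR.cont_spec ⟨f, hconts⟩).eventuallyEq hconts (fun _ _ => rfl) 0)
  rw [h1]
  refine hgan.meromorphicTrailingCoeffAt_of_ne_zero_of_eq_nhdsNE (n := (n0 F : ℤ) - 1) hg00 ?_
  have h2 : ∀ᶠ s : ℂ in 𝓝[≠] 0, s ≠ 0 := self_mem_nhdsWithin
  filter_upwards [h2] with s hs
  rw [hf, hg]
  simp only
  rw [HH_eq F hs, sub_zero, zpow_sub_one₀ hs, zpow_natCast, smul_eq_mul, mul_inv]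
  ring

end Pool.Agent.H78.SI
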