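import Pool.Graph.R_pool_sql_team_seeded_3997aac3.Q20.SI.Main3
import Pool.Graph.R_pool_sql_team_seeded_3997aac3.Q20.SI.All
import Pool.Graph.R_pool_sql_team_seeded_3997aac3.Q176.SI.Rgt
import Pool.Graph.R_pool_sql_team_seeded_3997aac3.Q123.SI.Nsp
import Pool.Graph.R_pool_sql_team_seeded_3997aac3.Q123.SI.Unk
import Pool.Graph.R_pool_sql_team_seeded_3997aac3.Q223.SI.Rga
import Pool.Graph.R_pool_sql_team_seeded_3997aac3.Q223.SI.Rgb
import Pool.Graph.R_pool_sql_team_seeded_3997aac3.Q277.SI.Ram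
import Pool.Graph.R_pool_sql_team_seeded_3997aac3.Q182.SI.Aux182
import Pool.Graph.R_pool_sql_team_seeded_3997aac3.Q214.SI.Kerf
import Pool.Agent.H78.SI.Cn0

/-!
# Project SI: the reduction to the unramified and the minimal case
-/

set_option autoImplicit false
set_option linter.unusedSectionVars false

namespace Pool.Agent.H78.SI

open NumberField IsDedekindDomain Pool.Agent.Q20.RS Pool.Agent.Q20.SI

theorem order_main {F : Type} [Field F] [NumberField F] (hU : UnramifiedCase F)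
    (hM : MinimalCase F) {K : Type} [Field K] [NumberField K] [Algebra F K] [IsGalois F K]
    (D : OrderData F K) : D.Q1 :=
  Pool.Agent.Q20.SI.order_main cmpT Pool.Agent.Q176.SI.reg orb exi Pool.Agent.Q277.SI.ram Pool.Agent.Q123.SI.lfn
    cn0 Pool.Agent.Q223.SI.rga Pool.Agent.Q223.SI.rgb Pool.Agent.Q176.SI.rgt
    Pool.Agent.Q123.SI.Nsp.nsp Pool.Agent.Q182.SI.auxp Pool.Agent.Q214.SI.ker Pool.Agent.Q123.SI.Unk.unk
    hU hM D

theorem all_starkEq {F : Type} [Field F] [NumberField F] (hU : UnramifiedCase F)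
    (hM : MinimalCase F) {ψ : RL.Lin (base F)} (hψ : ψ.smooth) (σ : ℂ ≃+* ℂ) :
    RL.StarkEq ψ.fn σ :=
  Pool.Agent.Q20.SI.all_starkEq cmpT Pool.Agent.Q176.SI.reg orb exi Pool.Agent.Q277.SI.ram
    Pool.Agent.Q182.SI.auxp Pool.Agent.Q214.SI.ker Pool.Agent.Q123.SI.Unk.unk hU hM
    Pool.Agent.Q123.SI.lfn cn0 Pool.Agent.Q223.SI.rga Pool.Agent.Q223.SI.rgb
    Pool.Agent.Q123.SI.Nsp.nsp hψ σ

end Pool.Agent.H78.SI
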