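import Pool.Agent.H78.SI.Base
import Pool.Graph.R_pool_sql_team_seeded_3997aac3.Q280.SI.Pop
import Pool.Graph.R_pool_sql_team_seeded_3997aac3.Q280.SI.Spl
import Pool.Graph.R_pool_sql_team_seeded_3997aac3.Q20.RS.Cgp

/-!
# Leading coefficients of single characters in terms of units, up to roots of unity
-/

set_option autoImplicit false
set_option linter.unusedSectionVars false

namespace Pool.Agent.H78.SI

open NumberField IsDedekindDomain Pool.Agent.Q20.RS Pool.Agent.Q20.SI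
open Pool.Agent.Q20.TR (bt)

section
variable {E M : Type} [Field E] [NumberField E] [Field M] [NumberField M] [Algebra E M]

/-- the regulator of units divided by the leading coefficient -/
noncomputable def rat (S : Finset (HeightOneSpectrum (𝓞 E))) {ι : Type} [Fintype ι] [DecidableEq ι]
    (w : ι → Pl M) (α : ι → M) (χ : (M ≃ₐ[E] M) →* ℂˣ) : ℂ :=
  (ellM χ α w).det / lead S χ

/-- Stark's equalities for `χ` in terms of units, after taking `m`-th powers -/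
def GoodM (m : ℕ) (S : Finset (HeightOneSpectrum (𝓞 E))) {ι : Type} [Fintype ι] [DecidableEq ι]
    (w : ι → Pl M) (χ : (M ≃ₐ[E] M) →* ℂˣ) : Prop :=
  ∃ α : ι → M, (∀ i, IsUnt (abv M S) (α i)) ∧
    (∀ σ : ℂ ≃+* ℂ, (ellM (cj σ χ) α w).det ≠ 0) ∧
    ∀ σ : ℂ ≃+* ℂ, σ (rat S w α χ) ^ m = rat S w α (cj σ χ) ^ m

theorem lead_ne' [IsGalois E M] (S : Finset (HeightOneSpectrum (𝓞 E))) (χ : (M ≃ₐ[E] M) →* ℂˣ) :
    lead S χ ≠ 0 := leading_ne (lin_mem _ _)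

theorem cj_ker (σ : ℂ ≃+* ℂ) (χ : (M ≃ₐ[E] M) →* ℂˣ) (g : M ≃ₐ[E] M) :
    cj σ χ g = 1 ↔ χ g = 1 := ker_conj (σ := σ) (fun _ => rfl) g

/-- the setting: an abelian extension `M` of `E` over `K`, embedded in `K̄`, and a character -/
structure Set1 (K E M : Type) [Field K] [NumberField K] [Field E] [NumberField E] [Field M]
    [NumberField M] [Algebra K E] [Algebra K M] [Algebra E M] [IsScalarTower K E M]
    (E' : IntermediateField K (AlgebraicClosure K)) (j : M →ₐ[K] AlgebraicClosure K)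
    (χ : (M ≃ₐ[E] M) →* ℂˣ) (ψ : E'.fixingSubgroup → ℂ) : Prop where
  comm : ∀ a b : M ≃ₐ[E] M, a * b = b * a
  hm : ∀ z, z ∈ E' ↔ ∃ x : E, j (algebraMap E M x) = z
  infl : Infl j ψ (cf χ)
  nt : ∃ g, χ g ≠ 1

end

section
variable {K E M : Type} [Field K] [NumberField K] [Field E] [NumberField E] [Field M]
    [NumberField M] [Algebra K E] [Algebra K M] [Algebra E M] [IsScalarTower K E M] [IsGalois E M]
    {E' : IntermediateField K (AlgebraicClosure K)} {j : M →ₐ[K] AlgebraicClosure K}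
    {χ : (M ≃ₐ[E] M) →* ℂˣ} {ψ : E'.fixingSubgroup → ℂ}

/-- **the comparison** -/
theorem Set1.cmp (H : Set1 K E M E' j χ ψ) {S : Finset (HeightOneSpectrum (𝓞 E))}
    (hS : ∀ p : HeightOneSpectrum (𝓞 E), ¬ Unrm M p → p ∈ S) {ι : Type} [Fintype ι]
    [DecidableEq ι] {w : ι → Pl M} (hw : Reps χ (abv M S) w) :
    ∃ α : ι → M, (∀ i, IsUnt (abv M S) (α i)) ∧
      (∀ σ : ℂ ≃+* ℂ, (ellM (cj σ χ) α w).det ≠ 0) ∧
      ∃ N₁ : IntermediateField K (AlgebraicClosure K), FiniteDimensional K N₁ ∧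
        ∀ ℓ : Level K, N₁ ≤ ℓ.N → ∃ e : ℂ, e ≠ 0 ∧ e ∈ valF χ ∧
          ∀ σ : ℂ ≃+* ℂ, ℓ.A (F₀ := E') (fun g => σ (ψ g)) = σ e * rat S w α (cj σ χ) := by
  have hT := stable_abv orb (K := M) S
  have hR := ram_abv orb hS
  obtain ⟨α, hα, hdet, h⟩ := cmpT E M H.comm (abv M S) hT hR χ H.nt ι w hw
  obtain ⟨N₁, hN₁, key⟩ := level_vals orb Pool.Agent.Q277.SI.ram j H.hm (abv M S) χ w α h
  refine ⟨α, hα, fun σ => hdet _ (cj_ker σ χ), N₁, hN₁, fun ℓ hℓ => ?_⟩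
  obtain ⟨e, he, h1⟩ := key ℓ hℓ
  have h2 : ∀ σ : ℂ ≃+* ℂ, ℓ.A (F₀ := E') (fun g => σ (ψ g)) = σ e * rat S w α (cj σ χ) := by
    intro σ
    rw [h1 σ (cj σ χ) (fun g => σ (ψ g)) (fun _ => rfl) fun y g hy => by
      change σ (cf χ y) = σ (ψ g)
      rw [H.infl y g hy]]
    unfold rat lead
    ring
  refine ⟨e, he, mem_valF χ fun σ hσ => ?_, h2⟩
  have h3 : cj σ χ = χ := by
    ext g
    exact (hσ g).symm
  have h4 : (fun g => σ (ψ g)) = ψ := by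
    funext g
    obtain ⟨y, hy⟩ := exists_restr j H.hm g
    have h5 := H.infl y g hy
    rw [← h5, ← hσ]
  have h5 := h2 σ
  have h6 := h2 (RingEquiv.refl ℂ)
  rw [h3, h4] at h5
  have h7 : (fun g => (RingEquiv.refl ℂ) (ψ g)) = ψ := rfl
  have h8 : rat S w α χ ≠ 0 := by
    have h9 := hdet χ fun _ => Iff.rfl
    exact div_ne_zero h9 (lead_ne' S χ)
  rw [h7, h5, cj_refl] at h6
  exact mul_right_cancel₀ h8 h6

/-- from units to levels, uniformly in `σ` -/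
theorem Set1.level_of_good (H : Set1 K E M E' j χ ψ) {S : Finset (HeightOneSpectrum (𝓞 E))}
    (hS : ∀ p : HeightOneSpectrum (𝓞 E), ¬ Unrm M p → p ∈ S) {ι : Type} [Fintype ι]
    [DecidableEq ι] {w : ι → Pl M} (hw : Reps χ (abv M S) w) {m : ℕ} 
    (h : ∀ α : ι → M, (∀ i, IsUnt (abv M S) (α i)) → (∀ σ : ℂ ≃+* ℂ, (ellM (cj σ χ) α w).det ≠ 0) →
      ∀ σ : ℂ ≃+* ℂ, σ (rat S w α χ) ^ m = rat S w α (cj σ χ) ^ m) :
    ∃ N₁ : IntermediateField K (AlgebraicClosure K), FiniteDimensional K N₁ ∧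
        ∀ ℓ : Level K, N₁ ≤ ℓ.N → ∀ σ : ℂ ≃+* ℂ,
          σ (ℓ.A (F₀ := E') ψ) ^ m = ℓ.A (F₀ := E') (fun g => σ (ψ g)) ^ m := by
  obtain ⟨α, hα, hdet, N₁, hN₁, h1⟩ := H.cmp hS hw
  refine ⟨N₁, hN₁, fun ℓ hℓ σ => ?_⟩
  obtain ⟨e, he, -, h2⟩ := h1 ℓ hℓ
  have h3 := h2 (RingEquiv.refl ℂ)
  change ℓ.A (F₀ := E') ψ = e * rat S w α χ at h3
  rw [h2 σ, h3, map_mul, mul_pow, mul_pow, h α hα hdet σ]

/-- **Stark's equality from a formula with units** -/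
theorem rat_of_formula {S : Finset (HeightOneSpectrum (𝓞 E))} {χ : (M ≃ₐ[E] M) →* ℂˣ}
    (hχ : ∃ g, χ g ≠ 1) {ι : Type} [Fintype ι] [DecidableEq ι] {w : ι → Pl M}
    (hw : Reps χ (abv M S) w) {n : ℕ} (c : Fin n → ℂ) (u : Fin n → ι → M)
    (hu : ∀ k i, IsUnt (abv M S) (u k i))
    (h : ∀ σ : ℂ ≃+* ℂ, lead S (cj σ χ) = ∑ k, σ (c k) * (ellM (cj σ χ) (u k) w).det)
    (α : ι → M) (hα : ∀ i, IsUnt (abv M S) (α i))
    (hdet : ∀ σ : ℂ ≃+* ℂ, (ellM (cj σ χ) α w).det ≠ 0) (σ : ℂ ≃+* ℂ) :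
    σ (rat S w α χ) = rat S w α (cj σ χ) := by
  classical
  have hT := stable_abv orb (K := M) S
  have hd0 : (ellM χ α w).det ≠ 0 := by
    have h1 := hdet (RingEquiv.refl ℂ)
    rwa [cj_refl] at h1
  choose d hd using fun k i => cmp_span Pool.Agent.Q176.SI.reg exi (abv M S) hT χ hχ w hw
    α hα hd0 (hu k i)
  let C : Fin n → Matrix ι ι ℂ := fun k => Matrix.of fun l i => d k i l
  have hC : ∀ σ : ℂ ≃+* ℂ, ∀ k,
      (ellM (cj σ χ) (u k) w).det = (ellM (cj σ χ) α w).det * σ (C k).det := by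
    intro σ k
    have h1 : ellM (cj σ χ) (u k) w = ellM (cj σ χ) α w * (C k).map σ := by
      ext i i'
      rw [Matrix.mul_apply]
      refine (hd k i' σ (cj σ χ) (fun _ => rfl) i).trans (Finset.sum_congr rfl fun l _ => ?_)
      change σ (d k i' l) * ell (cj σ χ) (α l) (w i) = ell (cj σ χ) (α l) (w i) * σ (d k i' l)
      ring
    have h2 : ((C k).map σ).det = σ (C k).det := ((σ : ℂ →+* ℂ).map_det (C k)).symm
    rw [h1, Matrix.det_mul, h2]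
  let B : ℂ := ∑ k, c k * (C k).det
  have hB : ∀ σ : ℂ ≃+* ℂ, lead S (cj σ χ) = (ellM (cj σ χ) α w).det * σ B := by
    intro σ
    rw [h σ]
    change _ = _ * σ (∑ k, c k * (C k).det)
    rw [map_sum, Finset.mul_sum]
    refine Finset.sum_congr rfl fun k _ => ?_
    rw [hC σ k, map_mul]
    ring
  have hr : ∀ σ : ℂ ≃+* ℂ, rat S w α (cj σ χ) = (σ B)⁻¹ := by
    intro σ
    have h1 : (ellM (cj σ χ) α w).det ≠ 0 := hdet σ
    unfold rat
    rw [hB σ, div_mul_eq_div_div, div_self h1, one_div]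
  have h3 := hr (RingEquiv.refl ℂ)
  rw [cj_refl] at h3
  rw [hr σ, h3, map_inv₀]
  rfl

/-- elements of the value field are algebraic -/
theorem alg_valF (χ : (M ≃ₐ[E] M) →* ℂˣ) {z : ℂ} (hz : z ∈ valF χ) : IsAlgebraic ℚ z := by
  have h1 : Algebra.IsAlgebraic ℚ (valF χ) := by
    refine IntermediateField.isAlgebraic_adjoin ?_
    rintro _ ⟨g, rfl⟩
    refine IsIntegral.of_pow (n := Fintype.card (M ≃ₐ[E] M)) Fintype.card_pos ?_
    have h2 : cf χ g ^ Fintype.card (M ≃ₐ[E] M) = 1 := by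
      unfold cf
      rw [← Units.val_pow_eq_pow_val, ← map_pow, pow_card_eq_one, map_one, Units.val_one]
    rw [h2]
    exact isIntegral_one
  have h2 := h1.isAlgebraic (⟨z, hz⟩ : valF χ)
  exact h2.algebraMap (A := ℂ)

/-- a common exponent -/
theorem exists_exponent (x : ((M ≃ₐ[E] M) →* ℂˣ) → ℂ) (χ : (M ≃ₐ[E] M) →* ℂˣ)
    (halg : IsAlgebraic ℚ (x χ))
    (h : ∀ σ : ℂ ≃+* ℂ, ∃ m : ℕ, 0 < m ∧ σ (x χ) ^ m = x (cj σ χ) ^ m) :
    ∃ m : ℕ, 0 < m ∧ ∀ σ : ℂ ≃+* ℂ, σ (x χ) ^ m = x (cj σ χ) ^ m := by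
  classical
  let Y : Type := {p : ℂ × ((M ≃ₐ[E] M) →* ℂˣ) // ∃ σ : ℂ ≃+* ℂ, p = (σ (x χ), cj σ χ)}
  have hY : Finite Y := by
    let f : Y → ((minpoly ℚ (x χ)).rootSet ℂ) × ((M ≃ₐ[E] M) →* ℂˣ) := fun p =>
      (⟨p.1.1, by
        obtain ⟨σ, hσ⟩ := p.2
        rw [hσ]
        rw [Polynomial.mem_rootSet]
        refine ⟨minpoly.ne_zero halg.isIntegral, ?_⟩
        have h1 : (Polynomial.aeval (σ (x χ))) (minpoly ℚ (x χ)) =
            σ ((Polynomial.aeval (x χ)) (minpoly ℚ (x χ))) := by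
          have h2 := Polynomial.hom_eval₂ (minpoly ℚ (x χ)) (algebraMap ℚ ℂ) (σ : ℂ →+* ℂ) (x χ)
          rw [Polynomial.aeval_def, Polynomial.aeval_def]
          refine Eq.trans ?_ h2.symm
          congr 1
          exact Subsingleton.elim _ _
        rw [h1, minpoly.aeval, map_zero]⟩, p.1.2)
    have hfin : Finite ((minpoly ℚ (x χ)).rootSet ℂ) := (Polynomial.rootSet_finite _ _).to_subtype
    refine Finite.of_injective f fun p q hpq => ?_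
    apply Subtype.ext
    have h1 := congrArg (fun z => (z.1.1, z.2)) hpq
    exact h1
  have hYf : Fintype Y := Fintype.ofFinite Y
  have h1 : ∀ p : Y, ∃ m : ℕ, 0 < m ∧ p.1.1 ^ m = x p.1.2 ^ m := by
    rintro ⟨p, σ, hσ⟩
    subst hσ
    exact h σ
  choose m hm hme using h1
  refine ⟨∏ p : Y, m p, Finset.prod_pos fun p _ => hm p, fun σ => ?_⟩
  let p : Y := ⟨(σ (x χ), cj σ χ), σ, rfl⟩
  obtain ⟨c, hc⟩ := Finset.dvd_prod_of_mem m (Finset.mem_univ p)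
  rw [hc, pow_mul, pow_mul]
  exact congrArg (fun z => z ^ c) (hme p)

end

section
variable {K E M : Type} [Field K] [NumberField K] [Field E] [NumberField E] [Field M]
    [NumberField M] [Algebra K E] [Algebra K M] [Algebra E M] [IsScalarTower K E M] [IsGalois E M]
    {E' : IntermediateField K (AlgebraicClosure K)} {j : M →ₐ[K] AlgebraicClosure K}
    {χ : (M ≃ₐ[E] M) →* ℂˣ} {ψ : E'.fixingSubgroup → ℂ}

/-- from levels to units, exact version -/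
theorem Set1.good_of_level (H : Set1 K E M E' j χ ψ) {S : Finset (HeightOneSpectrum (𝓞 E))}
    (hS : ∀ p : HeightOneSpectrum (𝓞 E), ¬ Unrm M p → p ∈ S) {ι : Type} [Fintype ι]
    [DecidableEq ι] {w : ι → Pl M} (hw : Reps χ (abv M S) w)
    (h : ∀ σ : ℂ ≃+* ℂ, ∃ N₀ : IntermediateField K (AlgebraicClosure K), FiniteDimensional K N₀ ∧
      ∀ ℓ : Level K, N₀ ≤ ℓ.N → σ (ℓ.A (F₀ := E') ψ) = ℓ.A (F₀ := E') fun g => σ (ψ g)) :
    GoodM 1 S w χ := by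
  obtain ⟨α, hα, hdet, N₁, hN₁, h1⟩ := H.cmp hS hw
  refine ⟨α, hα, hdet, fun σ => ?_⟩
  obtain ⟨N₀, hN₀, h3⟩ := h σ
  have hfd : FiniteDimensional K (N₀ ⊔ N₁ : IntermediateField K (AlgebraicClosure K)) :=
    IntermediateField.finiteDimensional_sup N₀ N₁
  obtain ⟨ℓ, hℓ⟩ := exists_lvl orb exi (N₀ ⊔ N₁)
  obtain ⟨e, he, -, h2⟩ := h1 ℓ (le_sup_right.trans hℓ)
  have h4 := h3 ℓ (le_sup_left.trans hℓ)
  have h5 := h2 (RingEquiv.refl ℂ)
  change ℓ.A (F₀ := E') ψ = e * rat S w α χ at h5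
  rw [h2 σ, h5, map_mul] at h4
  have h6 : σ e ≠ 0 := (map_ne_zero σ).2 he
  rw [pow_one, pow_one]
  exact mul_left_cancel₀ h6 h4

/-- from levels to units, up to roots of unity -/
theorem Set1.goodM_of_level (H : Set1 K E M E' j χ ψ) {S : Finset (HeightOneSpectrum (𝓞 E))}
    (hS : ∀ p : HeightOneSpectrum (𝓞 E), ¬ Unrm M p → p ∈ S) {ι : Type} [Fintype ι]
    [DecidableEq ι] {w : ι → Pl M} (hw : Reps χ (abv M S) w)
    (h : ∀ σ : ℂ ≃+* ℂ, ∃ N₀ : IntermediateField K (AlgebraicClosure K), FiniteDimensional K N₀ ∧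
      ∀ ℓ : Level K, N₀ ≤ ℓ.N → ∃ m : ℕ, 0 < m ∧
        σ (ℓ.A (F₀ := E') ψ) ^ m = (ℓ.A (F₀ := E') fun g => σ (ψ g)) ^ m)
    (ha : ∃ N₀ : IntermediateField K (AlgebraicClosure K), FiniteDimensional K N₀ ∧
      ∀ ℓ : Level K, N₀ ≤ ℓ.N → IsAlgebraic ℚ (ℓ.A (F₀ := E') ψ)) :
    ∃ m : ℕ, 0 < m ∧ GoodM m S w χ := by
  obtain ⟨α, hα, hdet, N₁, hN₁, h1⟩ := H.cmp hS hw
  have halg : IsAlgebraic ℚ (rat S w α χ) := by
    obtain ⟨N₀, hN₀, h3⟩ := ha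
    have hfd : FiniteDimensional K (N₀ ⊔ N₁ : IntermediateField K (AlgebraicClosure K)) :=
      IntermediateField.finiteDimensional_sup N₀ N₁
    obtain ⟨ℓ, hℓ⟩ := exists_lvl orb exi (N₀ ⊔ N₁)
    obtain ⟨e, he, hev, h2⟩ := h1 ℓ (le_sup_right.trans hℓ)
    have h4 := h3 ℓ (le_sup_left.trans hℓ)
    have h5 := h2 (RingEquiv.refl ℂ)
    change ℓ.A (F₀ := E') ψ = e * rat S w α χ at h5
    have h6 : rat S w α χ = e⁻¹ * ℓ.A (F₀ := E') ψ := by
      rw [h5, ← mul_assoc, inv_mul_cancel₀ he, one_mul]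
    rw [h6]
    exact ((alg_valF χ hev).inv).mul h4
  obtain ⟨m, hm, h3⟩ := exists_exponent (rat S w α) χ halg fun σ => by
    obtain ⟨N₀, hN₀, h3⟩ := h σ
    have hfd : FiniteDimensional K (N₀ ⊔ N₁ : IntermediateField K (AlgebraicClosure K)) :=
      IntermediateField.finiteDimensional_sup N₀ N₁
    obtain ⟨ℓ, hℓ⟩ := exists_lvl orb exi (N₀ ⊔ N₁)
    obtain ⟨e, he, -, h2⟩ := h1 ℓ (le_sup_right.trans hℓ)
    obtain ⟨m, hm, h4⟩ := h3 ℓ (le_sup_left.trans hℓ)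
    have h5 := h2 (RingEquiv.refl ℂ)
    change ℓ.A (F₀ := E') ψ = e * rat S w α χ at h5
    rw [h2 σ, h5, map_mul, mul_pow, mul_pow] at h4
    have h6 : σ e ^ m ≠ 0 := pow_ne_zero _ ((map_ne_zero σ).2 he)
    exact ⟨m, hm, mul_left_cancel₀ h6 h4⟩
  exact ⟨m, hm, α, hα, hdet, h3⟩

end

end Pool.Agent.H78.SI
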