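import Pool.Agent.H78.SI.Pop

/-!
# Data for faithful characters
-/

set_option autoImplicit false
set_option linter.unusedSectionVars false

namespace Pool.Agent.H78.SI

open NumberField IsDedekindDomain Pool.Agent.Q20.RS Pool.Agent.Q20.SI Pool.Agent.Q280.SI

/-- `v_1, …, v_r` are all places of `S` which split completely in `K` -/
def AllSplit {F K : Type} [Field F] [NumberField F] [Field K] [NumberField K] [Algebra F K]
    (D : PopData F K) : Prop :=
  ∀ v : Pl K, InPl (abv K D.S) v → (∀ g : K ≃ₐ[F] K, pact g v = v → g = 1) →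
    ∃ (i : Fin (D.s + 1)) (g : K ≃ₐ[F] K), pact g (D.w i) = v

/-- besides the archimedean places and the places ramified in `K`, `S` contains at most one place -/
def OneMore {F K : Type} [Field F] [NumberField F] [Field K] [NumberField K] [Algebra F K]
    (D : PopData F K) : Prop :=
  ∃ q : HeightOneSpectrum (𝓞 F), ∀ p ∈ D.S, ¬ Unrm K p ∨ p = q

section
variable {E M : Type} [Field E] [NumberField E] [Field M] [NumberField M] [Algebra E M]
  [IsGalois E M]

/-- data for a faithful character -/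
theorem exists_pop {S₀ : Finset (HeightOneSpectrum (𝓞 E))}
    (hS : ∀ p : HeightOneSpectrum (𝓞 E), ¬ Unrm M p → p ∈ S₀) {χ : (M ≃ₐ[E] M) →* ℂˣ}
    (hχ : Function.Injective χ) (hnt : ∃ g, χ g ≠ 1) :
    ∃ (D : PopData E M) (q : HeightOneSpectrum (𝓞 E)), (∀ p, p ∈ D.S ↔ p = q ∨ p ∈ S₀) ∧
      AllSplit D ∧ D.Exact χ := by
  classical
  have hcomm : ∀ a b : M ≃ₐ[E] M, a * b = b * a := fun a b =>
    hχ (by rw [map_mul, map_mul, mul_comm])
  have ht : ∀ v : Pl M, Triv χ v ↔ ∀ g : M ≃ₐ[E] M, pact g v = v → g = 1 := by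
    intro v
    constructor
    · intro h g hg
      apply hχ
      rw [h g hg, map_one]
    · intro h g hg
      rw [h g hg, map_one]
  obtain ⟨y, hy⟩ := hnt
  have key : ∀ q : HeightOneSpectrum (𝓞 E), (∃ v : Pl M, InPl (abv M (insert q S₀)) v ∧ Triv χ v) →
      (∃ v : Pl M, InPl (abv M (insert q S₀)) v ∧ ¬ Triv χ v) →
      ∃ (D : PopData E M) (q : HeightOneSpectrum (𝓞 E)), (∀ p, p ∈ D.S ↔ p = q ∨ p ∈ S₀) ∧
      AllSplit D ∧ D.Exact χ := by
    rintro q ⟨v, hv, hvt⟩ ⟨v', hv', hvt'⟩
    obtain ⟨r, w, hw⟩ := exists_reps (abv M (insert q S₀)) χ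
    obtain ⟨i₀, -⟩ := hw.cover v hv hvt
    obtain ⟨s, rfl⟩ : ∃ s, r = s + 1 := ⟨r - 1, by have := i₀.2; omega⟩
    refine ⟨⟨hcomm, insert q S₀, fun p hp => Finset.mem_insert_of_mem (hS p hp), s, w, hw.mem,
      fun i => (ht _).1 (hw.triv i), hw.inj, v', hv', fun i g h => hvt' ?_⟩, q,
      fun p => Finset.mem_insert, fun v hv h => hw.cover v hv ((ht v).2 h),
      Or.inl ⟨⟨y, hy⟩, hw.cover⟩⟩
    have h1 : w i = pact g⁻¹ v' := by
      rw [← h, ← pact_mul, inv_mul_cancel, pact_one]
    have h2 := hw.triv i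
    rw [h1] at h2
    exact triv_pact _ h2
  by_cases hA : ∃ v : Pl M, InPl (abv M S₀) v ∧ Triv χ v
  · obtain ⟨v, hv, hvt⟩ := hA
    obtain ⟨P, -, hP⟩ := Pool.Agent.Q123.SI.Nsp.nsp E M y ∅
    refine key (P.under (𝓞 E)) ⟨v, ?_, hvt⟩ ⟨.inl P, mem_abv.2 (Finset.mem_insert_self _ _),
      fun h => hy (h y (congrArg Sum.inl hP))⟩
    rcases v with Q | v
    · exact mem_abv.2 (Finset.mem_insert_of_mem (mem_abv.1 hv))
    · exact trivial
  · obtain ⟨P, hP⟩ := exists_spl (F := E) (M := M) hcomm Pool.Agent.Q92.AR.ramified_finite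
    obtain ⟨v⟩ : Nonempty (InfinitePlace M) := inferInstance
    refine key (P.under (𝓞 E)) ⟨.inl P, mem_abv.2 (Finset.mem_insert_self _ _), fun g hg => ?_⟩
      ⟨.inr v, trivial, fun h => hA ⟨.inr v, trivial, h⟩⟩
    rw [hP g (Sum.inl_injective hg), map_one]

end

/-- **Unramified case over `F`**: Q1 up to a multiple for cyclic extensions `L/E` which are unramified at all
finite places, `E` a finite extension of `F`, the set `S` of the archimedean places and one prime and all
completely split places in `S` -/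
def UnramPop (F : Type) [Field F] [NumberField F] : Prop :=
  ∀ (E L : Type) [Field E] [NumberField E] [Algebra F E] [Field L] [NumberField L] [Algebra E L]
    [IsGalois E L] (D : PopData E L), IsCyclic (L ≃ₐ[E] L) →
    (∀ p : HeightOneSpectrum (𝓞 E), Unrm L p) → D.S.card = 1 → AllSplit D → PopQ1 D

/-- no real place of `F` splits completely in `L` -/
def NoReal (F L : Type) [Field F] [NumberField F] [Field L] [NumberField L] [Algebra F L] : Prop :=
  ∀ v : InfinitePlace L, (v.comap (algebraMap F L)).IsReal → ∃ g : L ≃ₐ[F] L, g • v = v ∧ g ≠ 1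

/-- **Minimal case over `F`**: Q1 up to a multiple for cyclic extensions `L/F` in which no real place of
`F` splits completely, the archimedean and ramified places and at most one other place in `S`, and all
completely split places in `S` -/
def MinPop (F : Type) [Field F] [NumberField F] : Prop :=
  ∀ (L : Type) [Field L] [NumberField L] [Algebra F L] [IsGalois F L] (D : PopData F L),
    IsCyclic (L ≃ₐ[F] L) → NoReal F L → OneMore D → AllSplit D → PopQ1 D

end Pool.Agent.H78.SI
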