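import Pool.Agent.H78.SI.Asm

/-!
# Popescu's lattice: contraction of wedge products with integral coefficients
-/

set_option autoImplicit false
set_option linter.unusedSectionVars false

namespace Pool.Agent.H78.SI

open NumberField IsDedekindDomain Pool.Agent.Q20.RS Pool.Agent.Q20.SI Pool.Agent.Q280.SI

section
variable {F K : Type} [Field F] [NumberField F] [Field K] [NumberField K] [Algebra F K]

/-- `∑_g χ(g) h(g v)` -/
noncomputable def lin (v : Kˣ) (χ : (K ≃ₐ[F] K) →* ℂˣ) (h : Additive Kˣ →+ ℂ) : ℂ :=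
  ∑ g : K ≃ₐ[F] K, cf χ g * h (Additive.ofMul (uact g v))

theorem uact_mul (g : K ≃ₐ[F] K) (u v : Kˣ) : uact g (u * v) = uact g u * uact g v :=
  map_mul _ _ _

theorem uact_comp (g g' : K ≃ₐ[F] K) (u : Kˣ) : uact (g * g') u = uact g (uact g' u) := by
  ext
  rfl

theorem lin_mul (u v : Kˣ) (χ : (K ≃ₐ[F] K) →* ℂˣ) (h : Additive Kˣ →+ ℂ) :
    lin (u * v) χ h = lin u χ h + lin v χ h := by
  unfold lin
  rw [← Finset.sum_add_distrib]
  refine Finset.sum_congr rfl fun g _ => ?_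
  rw [uact_mul, ofMul_mul, map_add, mul_add]

theorem lin_one (χ : (K ≃ₐ[F] K) →* ℂˣ) (h : Additive Kˣ →+ ℂ) : lin 1 χ h = 0 := by
  have h1 := lin_mul 1 1 χ h
  rw [mul_one] at h1
  linear_combination -h1

theorem lin_inv (u : Kˣ) (χ : (K ≃ₐ[F] K) →* ℂˣ) (h : Additive Kˣ →+ ℂ) :
    lin u⁻¹ χ h = -lin u χ h := by
  have h1 := lin_mul u⁻¹ u χ h
  rw [inv_mul_cancel, lin_one] at h1
  linear_combination -h1

theorem lin_pow (u : Kˣ) (n : ℕ) (χ : (K ≃ₐ[F] K) →* ℂˣ) (h : Additive Kˣ →+ ℂ) :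
    lin (u ^ n) χ h = n * lin u χ h := by
  induction n with
  | zero => rw [pow_zero, lin_one]; simp
  | succ n ih => rw [pow_succ, lin_mul, ih]; push_cast; ring

theorem lin_zpow (u : Kˣ) (n : ℤ) (χ : (K ≃ₐ[F] K) →* ℂˣ) (h : Additive Kˣ →+ ℂ) :
    lin (u ^ n) χ h = n * lin u χ h := by
  obtain ⟨n, rfl | rfl⟩ := n.eq_nat_or_neg
  · rw [zpow_natCast, lin_pow]; simp
  · rw [zpow_neg, zpow_natCast, lin_inv, lin_pow]; push_cast; ring

theorem lin_uact (t : K ≃ₐ[F] K) (u : Kˣ) (χ : (K ≃ₐ[F] K) →* ℂˣ) (h : Additive Kˣ →+ ℂ) :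
    lin (uact t⁻¹ u) χ h = cf χ t * lin u χ h := by
  unfold lin
  rw [Finset.mul_sum]
  refine Finset.sum_equiv (Equiv.mulRight t⁻¹) (fun _ => by simp) fun g _ => ?_
  rw [Equiv.coe_mulRight, uact_comp, ← mul_assoc]
  congr 1
  unfold cf
  rw [map_mul, map_inv, Units.val_mul, mul_comm, mul_assoc, Units.inv_mul, mul_one]

variable (F K) in
/-- the functions on the characters given by the integral group ring -/
def IntFn : Subring (((K ≃ₐ[F] K) →* ℂˣ) → ℂ) where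
  carrier := {t | ∃ b : (K ≃ₐ[F] K) → ℤ, ∀ χ, t χ = ∑ g, (b g : ℂ) * cf χ g}
  mul_mem' := by
    classical
    rintro s t ⟨a, ha⟩ ⟨b, hb⟩
    refine ⟨fun g => ∑ h, a h * b (h⁻¹ * g), fun χ => ?_⟩
    rw [Pi.mul_apply, ha, hb, Finset.sum_mul_sum]
    have h1 : ∀ g, ((∑ h, a h * b (h⁻¹ * g) : ℤ) : ℂ) * cf χ g =
        ∑ h, ((a h : ℂ) * cf χ h) * ((b (h⁻¹ * g) : ℂ) * cf χ (h⁻¹ * g)) := by
      intro g
      push_cast
      rw [Finset.sum_mul]
      refine Finset.sum_congr rfl fun h _ => ?_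
      have h2 : cf χ g = cf χ h * cf χ (h⁻¹ * g) := by
        unfold cf
        rw [← Units.val_mul, ← map_mul, mul_inv_cancel_left]
      rw [h2]
      ring
    rw [Finset.sum_congr rfl fun g _ => h1 g]
    symm
    rw [Finset.sum_comm]
    refine Finset.sum_congr rfl fun h _ => ?_
    exact Equiv.sum_comp (Equiv.mulLeft h⁻¹) fun g =>
      ((a h : ℂ) * cf χ h) * ((b g : ℂ) * cf χ g)
  one_mem' := by
    classical
    refine ⟨fun g => if g = 1 then 1 else 0, fun χ => ?_⟩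
    have h1 : ∀ g, (((if g = 1 then 1 else 0 : ℤ)) : ℂ) * cf χ g = if g = 1 then 1 else 0 := by
      intro g
      split_ifs with h
      · rw [h]
        unfold cf
        simp
      · simp
    rw [Finset.sum_congr rfl fun g _ => h1 g, Finset.sum_ite_eq', if_pos (Finset.mem_univ _)]
    rfl
  add_mem' := by
    rintro s t ⟨a, ha⟩ ⟨b, hb⟩
    refine ⟨fun g => a g + b g, fun χ => ?_⟩
    rw [Pi.add_apply, ha, hb, ← Finset.sum_add_distrib]
    refine Finset.sum_congr rfl fun g _ => ?_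
    push_cast
    ring
  zero_mem' := ⟨fun _ => 0, fun χ => by simp⟩
  neg_mem' := by
    rintro s ⟨a, ha⟩
    refine ⟨fun g => -a g, fun χ => ?_⟩
    rw [Pi.neg_apply, ha, ← Finset.sum_neg_distrib]
    refine Finset.sum_congr rfl fun g _ => ?_
    push_cast
    ring

variable (F) in
/-- the functions given by units -/
def LinFn (T : Finset (HeightOneSpectrum (𝓞 K))) :
    AddSubgroup (((K ≃ₐ[F] K) →* ℂˣ) → (Additive Kˣ →+ ℂ) → ℂ) where
  carrier := {φ | ∃ v : Kˣ, IsUnt T (v : K) ∧ ∀ χ h, φ χ h = lin v χ h}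
  add_mem' := by
    rintro s t ⟨u, hu, hs⟩ ⟨v, hv, ht⟩
    refine ⟨u * v, ⟨Units.ne_zero _, fun P hP => ?_⟩, fun χ h => ?_⟩
    · rw [Units.val_mul, map_mul, hu.2 P hP, hv.2 P hP, mul_one]
    · rw [Pi.add_apply, Pi.add_apply, hs, ht, lin_mul]
  zero_mem' := ⟨1, ⟨one_ne_zero, fun P _ => map_one _⟩, fun χ h => (lin_one χ h).symm⟩
  neg_mem' := by
    rintro s ⟨u, hu, hs⟩
    refine ⟨u⁻¹, ⟨Units.ne_zero _, fun P hP => ?_⟩, fun χ h => ?_⟩
    · rw [Units.val_inv_eq_inv_val, map_inv₀, hu.2 P hP, inv_one]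
    · rw [Pi.neg_apply, Pi.neg_apply, hs, lin_inv]

theorem isUnt_uact {T : Finset (HeightOneSpectrum (𝓞 K))} (hT : Stable F T) (g : K ≃ₐ[F] K)
    {u : Kˣ} (hu : IsUnt T (u : K)) : IsUnt T ((uact g u : Kˣ) : K) :=
  adicAbv_act hT g hu

theorem isUnt_zpow {T : Finset (HeightOneSpectrum (𝓞 K))} {u : Kˣ} (hu : IsUnt T (u : K)) (n : ℤ) :
    IsUnt T ((u ^ n : Kˣ) : K) :=
  ⟨Units.ne_zero _, fun P hP => by rw [Units.val_zpow_eq_zpow_val, map_zpow₀, hu.2 P hP, one_zpow]⟩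

/-- multiplication with an element of the group ring -/
theorem smul_mem {T : Finset (HeightOneSpectrum (𝓞 K))} (hT : Stable F T)
    {t : ((K ≃ₐ[F] K) →* ℂˣ) → ℂ} (ht : t ∈ IntFn F K)
    {φ : ((K ≃ₐ[F] K) →* ℂˣ) → (Additive Kˣ →+ ℂ) → ℂ} (hφ : φ ∈ LinFn F T) :
    (fun χ h => t χ * φ χ h) ∈ LinFn F T := by
  obtain ⟨b, hb⟩ := ht
  obtain ⟨v, hv, h1⟩ := hφ
  have h2 : (fun χ h => t χ * φ χ h) = ∑ g : K ≃ₐ[F] K,
      (fun χ h => lin ((uact g⁻¹ v) ^ (b g)) χ h : ((K ≃ₐ[F] K) →* ℂˣ) →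
        (Additive Kˣ →+ ℂ) → ℂ) := by
    funext χ h
    rw [Finset.sum_apply, Finset.sum_apply, hb, h1, Finset.sum_mul]
    refine Finset.sum_congr rfl fun g _ => ?_
    rw [lin_zpow, lin_uact, mul_assoc]
  rw [h2]
  exact AddSubgroup.sum_mem _ fun g _ => ⟨_, isUnt_zpow (isUnt_uact hT _ hv) _, fun _ _ => rfl⟩

/-- determinants of integral functions -/
theorem det_mem {ι : Type} [Fintype ι] [DecidableEq ι]
    (A : ι → ι → (((K ≃ₐ[F] K) →* ℂˣ) → ℂ)) (hA : ∀ i j, A i j ∈ IntFn F K) :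
    (fun χ => (Matrix.of fun i j => A i j χ).det) ∈ IntFn F K := by
  have h1 : (fun χ => (Matrix.of fun i j => A i j χ).det) =
      ∑ σ : Equiv.Perm ι, ((Equiv.Perm.sign σ : ℤ) : ((K ≃ₐ[F] K) →* ℂˣ) → ℂ) *
        ∏ i, A (σ i) i := by
    funext χ
    rw [Matrix.det_apply', Finset.sum_apply]
    refine Finset.sum_congr rfl fun σ _ => ?_
    rw [Pi.mul_apply, Finset.prod_apply]
    rfl
  rw [h1]
  exact Subring.sum_mem _ fun σ _ => Subring.mul_mem _ (intCast_mem _ _)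
    (Subring.prod_mem _ fun i _ => hA _ _)

/-- **contraction** -/
theorem contraction {T : Finset (HeightOneSpectrum (𝓞 K))} (hT : Stable F T) {s : ℕ}
    (x : Wedge F K (s + 1)) (W : ℕ) (b : Fin x.n → (K ≃ₐ[F] K) → ℤ)
    (hx : ∀ k g, x.a k g = W * b k g) (hu : ∀ k j, IsUnt T ((x.u k j : Kˣ) : K))
    (f : Fin s → (Additive Kˣ →+ ℂ))
    (hf : ∀ i, ∀ u : Kˣ, IsUnt T (u : K) → ∃ z : ℤ, f i (Additive.ofMul u) = z) :
    ∃ v : Kˣ, IsUnt T (v : K) ∧ ∀ (χ : (K ≃ₐ[F] K) →* ℂˣ) (h : Additive Kˣ →+ ℂ),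
      x.pair χ (Fin.snoc (α := fun _ => Additive Kˣ →+ ℂ) f h) = lin (v ^ W) χ h := by
  classical
  let φ : ((K ≃ₐ[F] K) →* ℂˣ) → (Additive Kˣ →+ ℂ) → ℂ := fun χ h =>
    ∑ k, (∑ g, (b k g : ℂ) * cf χ g) * ∑ j : Fin (s + 1),
      ((((-1 : ℤ) ^ (s + (j : ℕ)) : ℤ) : ℂ) *
        (Matrix.of fun i j' => ∑ g, cf χ g *
          f i (Additive.ofMul (uact g (x.u k (Fin.succAbove j j'))))).det) * lin (x.u k j) χ h
  have hφ : φ ∈ LinFn F T := by
    have h1 : φ = ∑ k, (fun χ h => (∑ g, (b k g : ℂ) * cf χ g) *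
        (∑ j : Fin (s + 1), (fun χ h => ((((-1 : ℤ) ^ (s + (j : ℕ)) : ℤ) : ℂ) *
        (Matrix.of fun i j' => ∑ g, cf χ g *
          f i (Additive.ofMul (uact g (x.u k (Fin.succAbove j j'))))).det) * lin (x.u k j) χ h :
            ((K ≃ₐ[F] K) →* ℂˣ) → (Additive Kˣ →+ ℂ) → ℂ)) χ h) := by
      funext χ h
      rw [Finset.sum_apply, Finset.sum_apply]
      refine Finset.sum_congr rfl fun k _ => ?_
      rw [Finset.sum_apply, Finset.sum_apply]
    rw [h1]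
    refine AddSubgroup.sum_mem _ fun k _ => smul_mem hT ⟨b k, fun χ => rfl⟩ ?_
    refine AddSubgroup.sum_mem _ fun j _ => ?_
    refine smul_mem hT (t := fun χ => (((-1 : ℤ) ^ (s + (j : ℕ)) : ℤ) : ℂ) *
        (Matrix.of fun i j' => ∑ g, cf χ g *
          f i (Additive.ofMul (uact g (x.u k (Fin.succAbove j j'))))).det)
      (φ := fun χ h => lin (x.u k j) χ h) ?_ ⟨_, hu k j, fun _ _ => rfl⟩
    refine Subring.mul_mem _ (x := fun _ => (((-1 : ℤ) ^ (s + (j : ℕ)) : ℤ) : ℂ)) ?_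
      (det_mem (fun i j' χ => ∑ g, cf χ g *
        f i (Additive.ofMul (uact g (x.u k (Fin.succAbove j j'))))) fun i j' => ?_)
    · exact intCast_mem _ ((-1 : ℤ) ^ (s + (j : ℕ)))
    · choose z hz using fun g => hf i _ (isUnt_uact hT g (hu k (Fin.succAbove j j')))
      refine ⟨z, fun χ => Finset.sum_congr rfl fun g _ => ?_⟩
      rw [hz, mul_comm]
  obtain ⟨v, hv, h1⟩ := hφ
  refine ⟨v, hv, fun χ h => ?_⟩
  rw [lin_pow, ← h1]
  change _ = (W : ℂ) * ∑ k, _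
  unfold Wedge.pair
  rw [Finset.mul_sum]
  refine Finset.sum_congr rfl fun k _ => ?_
  have h2 : ∑ g, (x.a k g : ℂ) * cf χ g = W * ∑ g, (b k g : ℂ) * cf χ g := by
    rw [Finset.mul_sum]
    refine Finset.sum_congr rfl fun g _ => ?_
    rw [hx]
    push_cast
    ring
  rw [h2, mul_assoc]
  congr 2
  rw [Matrix.det_succ_row _ (Fin.last s)]
  refine Finset.sum_congr rfl fun j _ => ?_
  rw [Matrix.of_apply, Fin.snoc_last]
  have h3 : (Matrix.of fun i j => ∑ g, cf χ g *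
      (Fin.snoc (α := fun _ => Additive Kˣ →+ ℂ) f h i) (Additive.ofMul (uact g (x.u k j)))
        ).submatrix (Fin.last s).succAbove j.succAbove =
      Matrix.of fun i j' => ∑ g, cf χ g *
          f i (Additive.ofMul (uact g (x.u k (Fin.succAbove j j')))) := by
    ext i j'
    rw [Matrix.submatrix_apply, Matrix.of_apply, Matrix.of_apply, Fin.succAbove_last,
      Fin.snoc_castSucc]
  rw [h3]
  unfold lin
  push_cast
  ring

end

end Pool.Agent.H78.SI
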