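import Pool.Agent.H78.SI.Lam

/-!
# The rational part of Popescu's conjecture from the characters
-/

set_option autoImplicit false
set_option linter.unusedSectionVars false

namespace Pool.Agent.H78.SI

open NumberField IsDedekindDomain Pool.Agent.Q20.RS Pool.Agent.Q20.SI Pool.Agent.Q280.SI

section
variable {F K : Type} [Field F] [NumberField F] [Field K] [NumberField K] [Algebra F K]

/-- the multiple `q x` -/
noncomputable def scale {r : ℕ} (q : ℚ) (x : Wedge F K r) : Wedge F K r where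
  n := x.n
  a := fun k g => q * x.a k g
  u := x.u

theorem scale_pair {r : ℕ} (q : ℚ) (x : Wedge F K r) (χ : (K ≃ₐ[F] K) →* ℂˣ)
    (f : Fin r → (Additive Kˣ →+ ℂ)) : (scale q x).pair χ f = q * x.pair χ f := by
  unfold Wedge.pair scale
  rw [Finset.mul_sum]
  refine Finset.sum_congr rfl fun k _ => ?_
  rw [← mul_assoc, Finset.mul_sum]
  congr 1
  refine Finset.sum_congr rfl fun g _ => ?_
  push_cast
  ring

theorem scale_reg {r : ℕ} (q : ℚ) (x : Wedge F K r) (χ : (K ≃ₐ[F] K) →* ℂˣ)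
    (w : Fin r → Pl K) : (scale q x).reg χ w = q * x.reg χ w := by
  unfold Wedge.reg scale
  rw [Finset.mul_sum]
  refine Finset.sum_congr rfl fun k _ => ?_
  rw [← mul_assoc, Finset.mul_sum]
  congr 1
  refine Finset.sum_congr rfl fun g _ => ?_
  push_cast
  ring

variable [IsGalois F K] (D : PopData F K)

/-- **a multiple lies in the lattice** -/
theorem exists_inLambda (x : Wedge F K (D.s + 1))
    (hu : ∀ k j, IsUnt (abv K D.S) ((x.u k j : Kˣ) : K))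
    (hp : ∀ χ : (K ≃ₐ[F] K) →* ℂˣ, ¬ D.Exact χ → ∀ k, ∑ g, (x.a k g : ℂ) * cf χ g = 0) :
    ∃ m : ℕ, 0 < m ∧ InLambda D (scale (m : ℚ) x) := by
  classical
  have hT := stable_abv orb (K := K) D.S
  let W := NumberField.Units.torsionOrder K
  have hW : 0 < W := NumberField.Units.torsionOrder_pos K
  let N : ℕ := ∏ k, ∏ g, (x.a k g).den
  have hN : 0 < N := Finset.prod_pos fun k _ => Finset.prod_pos fun g _ => (x.a k g).den_pos
  have hNd : ∀ k g, ∃ z : ℤ, (N : ℚ) * x.a k g = z := by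
    intro k g
    have h1 : (x.a k g).den ∣ N := (Finset.dvd_prod_of_mem (fun g => (x.a k g).den)
      (Finset.mem_univ g)).trans (Finset.dvd_prod_of_mem (fun k => ∏ g, (x.a k g).den)
        (Finset.mem_univ k))
    obtain ⟨c, hc⟩ := h1
    refine ⟨c * (x.a k g).num, ?_⟩
    have h3 : x.a k g * (x.a k g).den = (x.a k g).num := Rat.mul_den_eq_num _
    rw [hc]
    push_cast
    linear_combination (c : ℚ) * h3
  choose b hb using hNd
  refine ⟨W * N, mul_pos hW hN, ⟨hu, fun f hf => ?_, fun χ hχ f => ?_⟩⟩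
  · obtain ⟨v, hv, h1⟩ := contraction hT (scale ((W * N : ℕ) : ℚ) x) W b (fun k g => by
      change ((W * N : ℕ) : ℚ) * x.a k g = _
      rw [← hb k g]
      push_cast
      ring) hu f hf
    exact ⟨v, hv, h1⟩
  · rw [scale_pair]
    unfold Wedge.pair
    rw [Finset.sum_eq_zero fun k _ => by rw [hp χ hχ k, zero_mul], mul_zero]

/-- conjugate characters -/
theorem pop_exact_iff {χ χ' : (K ≃ₐ[F] K) →* ℂˣ} (h : ∀ g, χ' g = 1 ↔ χ g = 1) :
    D.Exact χ' ↔ D.Exact χ := by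
  have h1 : ∀ v : Pl K, Triv χ' v ↔ Triv χ v := fun v =>
    ⟨fun h2 g hg => (h g).1 (h2 g hg), fun h2 g hg => (h g).2 (h2 g hg)⟩
  unfold PopData.Exact
  simp only [h1, h, ne_eq]

theorem pop_exact_cj (σ : ℂ ≃+* ℂ) (χ : (K ≃ₐ[F] K) →* ℂˣ) (h : D.Exact χ) :
    D.Exact (cj σ χ) := (pop_exact_iff D (cj_ker σ χ)).2 h

theorem pop_reps {χ : (K ≃ₐ[F] K) →* ℂˣ} (h : D.Exact χ) (hχ : ∃ g, χ g ≠ 1) :
    Reps χ (abv K D.S) D.w := by
  obtain ⟨-, h⟩ | ⟨h, -⟩ := h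
  · exact ⟨D.mem, fun i g hg => by rw [D.split i g hg, map_one], h, D.dist⟩
  · obtain ⟨g, hg⟩ := hχ
    exact absurd (h g) hg

/-- the trivial character -/
theorem pop_one {χ : (K ≃ₐ[F] K) →* ℂˣ} (h : D.Exact χ) (hχ : ∀ g, χ g = 1) :
    GoodM 1 D.S D.w χ := by
  obtain ⟨⟨g, hg⟩, -⟩ | ⟨-, v₀, hv₀⟩ := h
  · exact absurd (hχ g) hg
  exact good_one D.ram D.mem D.dist D.more hv₀ hχ

/-- the wedge with given units -/
noncomputable def mkWedge {n r : ℕ} (a : Fin n → (K ≃ₐ[F] K) → ℚ) (u : Fin n → Fin r → K)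
    (hu : ∀ k j, u k j ≠ 0) : Wedge F K r where
  n := n
  a := a
  u := fun k j => Units.mk0 (u k j) (hu k j)

/-- **Q1 up to a multiple from the characters** -/
theorem pop_of_good (h : ∀ χ : (K ≃ₐ[F] K) →* ℂˣ, D.Exact χ → (∃ g, χ g ≠ 1) → GoodM 1 D.S D.w χ) :
    PopQ1 D := by
  classical
  obtain ⟨n, a, u, hu, hp, hv⟩ := assemble_rat D.Exact (pop_exact_cj D) fun χ hχ => by
    by_cases h1 : ∀ g, χ g = 1
    · exact pop_one D hχ h1
    · push Not at h1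
      exact h χ hχ h1
  obtain ⟨m, hm, hx⟩ := exists_inLambda D (scale ((-1) ^ (D.s + 1)) (mkWedge a u fun k j =>
    (hu k j).1)) hu fun χ hχ k => by
      have h1 := hp χ hχ k
      have h2 : ∑ g, ((((-1 : ℚ) ^ (D.s + 1) * a k g : ℚ)) : ℂ) * cf χ g =
          (-1) ^ (D.s + 1) * ∑ g, (a k g : ℂ) * cf χ g := by
        rw [Finset.mul_sum]
        refine Finset.sum_congr rfl fun g _ => ?_
        push_cast
        ring
      exact h2.trans (by rw [h1, mul_zero])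
  refine ⟨m, _, hm, hx, fun χ => ?_⟩
  rw [scale_reg, scale_reg]
  have h1 : (mkWedge a u fun k j => (hu k j).1).reg χ D.w = D.value χ := by
    unfold PopData.value
    rw [hv χ]
    rfl
  rw [h1]
  push_cast
  have h2 : ((-1 : ℂ) ^ (D.s + 1)) * (-1) ^ (D.s + 1) = 1 := by
    rw [← mul_pow]
    norm_num
  linear_combination (m * D.value χ) * h2

/-- **Q1 up to roots of unity**: `η' = c x` with `x` in `Λ` and an element `c = ∑_g c(g) g⁻¹` of the group ring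
over the algebraic numbers with `c^m = ∑_g b(g) g⁻¹` in the rational group ring -/
def PopRoots : Prop :=
  ∃ (m : ℕ) (x : Wedge F K (D.s + 1)) (c : (K ≃ₐ[F] K) → ℂ) (b : (K ≃ₐ[F] K) → ℚ), 0 < m ∧
    InLambda D x ∧ (∀ g, IsAlgebraic ℚ (c g)) ∧
    (∀ χ : (K ≃ₐ[F] K) →* ℂˣ, (∑ g, c g * cf χ g) ^ m = ∑ g, (b g : ℂ) * cf χ g) ∧
    ∀ χ : (K ≃ₐ[F] K) →* ℂˣ, (-1) ^ (D.s + 1) * ((∑ g, c g * cf χ g) * x.reg χ D.w) = D.value χ

theorem roots_of_good (h : ∀ χ : (K ≃ₐ[F] K) →* ℂˣ, D.Exact χ → (∃ g, χ g ≠ 1) →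
    ∃ m : ℕ, 0 < m ∧ GoodM m D.S D.w χ) : PopRoots D := by
  classical
  have h' : ∀ χ : {χ : (K ≃ₐ[F] K) →* ℂˣ // D.Exact χ}, ∃ m : ℕ, 0 < m ∧
      GoodM m D.S D.w χ.1 := by
    rintro ⟨χ, hχ⟩
    by_cases h1 : ∀ g, χ g = 1
    · exact ⟨1, one_pos, pop_one D hχ h1⟩
    · push Not at h1
      exact h χ hχ h1
  choose m hm hg using h'
  have hfin : Finite {χ : (K ≃ₐ[F] K) →* ℂˣ // D.Exact χ} := inferInstance
  have hfint := Fintype.ofFinite {χ : (K ≃ₐ[F] K) →* ℂˣ // D.Exact χ}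
  let m₀ : ℕ := ∏ χ, m χ
  have hm₀ : 0 < m₀ := Finset.prod_pos fun χ _ => hm χ
  obtain ⟨n, a, u, c, b, hu, hp, hca, hcb, hv⟩ := assemble_roots D.Exact (pop_exact_cj D) hm₀
    fun χ hχ => (hg ⟨χ, hχ⟩).mul (Finset.dvd_prod_of_mem m (Finset.mem_univ _))
  obtain ⟨N, hN, hx⟩ := exists_inLambda D (mkWedge a u fun k j => (hu k j).1) hu hp
  have hNc : (N : ℂ) ≠ 0 := by exact_mod_cast hN.ne'
  refine ⟨m₀, _, fun g => (-1) ^ (D.s + 1) * (N : ℂ)⁻¹ * c g,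
    fun g => ((-1) ^ (D.s + 1) * (N : ℚ)⁻¹) ^ m₀ * b g, hm₀, hx, fun g => ?_, fun χ => ?_,
    fun χ => ?_⟩
  · refine IsAlgebraic.mul (IsAlgebraic.mul ?_ ?_) (hca g)
    · exact ((isAlgebraic_one (R := ℚ) (A := ℂ)).neg).pow _
    · exact (isAlgebraic_natCast (R := ℚ) (A := ℂ) _).inv
  · have h1 : ∑ g, (-1) ^ (D.s + 1) * (N : ℂ)⁻¹ * c g * cf χ g =
        ((-1) ^ (D.s + 1) * (N : ℂ)⁻¹) * ∑ g, c g * cf χ g := by
      rw [Finset.mul_sum]
      refine Finset.sum_congr rfl fun g _ => ?_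
      ring
    rw [h1, mul_pow, hcb, Finset.mul_sum]
    refine Finset.sum_congr rfl fun g _ => ?_
    push_cast
    ring
  · have h1 : ∑ g, (-1) ^ (D.s + 1) * (N : ℂ)⁻¹ * c g * cf χ g =
        ((-1) ^ (D.s + 1) * (N : ℂ)⁻¹) * ∑ g, c g * cf χ g := by
      rw [Finset.mul_sum]
      refine Finset.sum_congr rfl fun g _ => ?_
      ring
    have h2 : (∑ g, c g * cf χ g) * (mkWedge a u fun k j => (hu k j).1).reg χ D.w =
        D.value χ := by
      unfold PopData.value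
      rw [hv χ]
      rfl
    rw [h1, scale_reg, ← h2]
    have h3 : ((-1 : ℂ) ^ (D.s + 1)) * (-1) ^ (D.s + 1) = 1 := by
      rw [← mul_pow]
      norm_num
    push_cast
    field_simp
    linear_combination ((∑ g, c g * cf χ g) * (mkWedge a u fun k j => (hu k j).1).reg χ D.w) * h3

/-- Stark's equality for the characters from Q1 -/
theorem ratio_of_pop (h : PopQ1 D) {χ : (K ≃ₐ[F] K) →* ℂˣ} (hex : D.Exact χ) (hχ : ∃ g, χ g ≠ 1)
    (α : Fin (D.s + 1) → K) (hα : ∀ i, IsUnt (abv K D.S) (α i))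
    (hdet : ∀ σ : ℂ ≃+* ℂ, (ellM (cj σ χ) α D.w).det ≠ 0) (σ : ℂ ≃+* ℂ) :
    σ (rat D.S D.w α χ) = rat D.S D.w α (cj σ χ) := by
  obtain ⟨m, x, hm, hx, h1⟩ := h
  have hmc : (m : ℂ) ≠ 0 := by exact_mod_cast hm.ne'
  refine rat_of_formula hχ (pop_reps D hex hχ)
    (fun k => (m : ℂ)⁻¹ * (-1) ^ (D.s + 1) * ∑ g, (x.a k g : ℂ) * cf χ g)
    (fun k j => ((x.u k j : Kˣ) : K)) hx.unit (fun σ => ?_) α hα hdet σ
  have h2 := h1 (cj σ χ)
  have h3 : D.value (cj σ χ) = lead D.S (cj σ χ) := by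
    unfold PopData.value
    rw [if_pos (pop_exact_cj D σ χ hex)]
  rw [h3] at h2
  have h4 : ∀ k, σ ((m : ℂ)⁻¹ * (-1) ^ (D.s + 1) * ∑ g, (x.a k g : ℂ) * cf χ g) =
      (m : ℂ)⁻¹ * (-1) ^ (D.s + 1) * ∑ g, (x.a k g : ℂ) * cf (cj σ χ) g := by
    intro k
    rw [map_mul, map_mul, map_inv₀, map_natCast, map_pow, map_neg, map_one, map_sum]
    congr 1
    refine Finset.sum_congr rfl fun g _ => ?_
    rw [map_mul, map_ratCast]
    rfl
  have h5 : ∑ k, σ ((m : ℂ)⁻¹ * (-1) ^ (D.s + 1) * ∑ g, (x.a k g : ℂ) * cf χ g) *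
      (ellM (cj σ χ) (fun j => ((x.u k j : Kˣ) : K)) D.w).det =
      (m : ℂ)⁻¹ * ((-1) ^ (D.s + 1) * x.reg (cj σ χ) D.w) := by
    unfold Wedge.reg
    rw [Finset.mul_sum, Finset.mul_sum]
    refine Finset.sum_congr rfl fun k _ => ?_
    rw [h4]
    ring
  rw [h5, h2, ← mul_assoc, inv_mul_cancel₀ hmc, one_mul]

end

end Pool.Agent.H78.SI
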