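import Pool.Agent.H78.SI.Ext

/-!
# The reduction over a fixed base field
-/

set_option autoImplicit false
set_option linter.unusedSectionVars false

namespace Pool.Agent.H78.SI

open NumberField IsDedekindDomain Pool.Agent.Q20.RS Pool.Agent.Q20.SI Pool.Agent.Q280.SI
open Pool.Agent.Q20.RS.RL (StarkEq TotReal)

/-- Stark's equality for `ψ` at all large levels, uniformly in `σ` -/
def StarkU {K : Type} [Field K] [NumberField K] (E' : IntermediateField K (AlgebraicClosure K))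
    (ψ : E'.fixingSubgroup → ℂ) : Prop :=
  ∃ N₁ : IntermediateField K (AlgebraicClosure K), FiniteDimensional K N₁ ∧
    ∀ ℓ : Level K, N₁ ≤ ℓ.N → ∀ σ : ℂ ≃+* ℂ,
      σ (ℓ.A (F₀ := E') ψ) = ℓ.A (F₀ := E') fun g => σ (ψ g)

/-- trivial characters -/
theorem starkU_triv {K : Type} [Field K] [NumberField K] {E' : Pool.Agent.Q20.RS.Sub K} (hE : FinExt E')
    {χ : Fn E'} (h : ∀ g, χ g = 1) : StarkU E' χ ∧
      ∃ N₁ : IntermediateField K (AlgebraicClosure K), FiniteDimensional K N₁ ∧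
        ∀ ℓ : Level K, N₁ ≤ ℓ.N → IsAlgebraic ℚ (ℓ.A (F₀ := E') χ) := by
  have key : ∀ ℓ : Level K, E' ≤ ℓ.N → ∃ q : ℚ, ℓ.A (F₀ := E') χ = q := by
    intro ℓ hℓ
    have hfd : FiniteDimensional K E' := hE
    have hn : NumberField E' := NumberField.of_module_finite K E'
    let A : Algebra E' ℓ.N := (IntermediateField.inclusion hℓ).toRingHom.toAlgebra
    have t : IsScalarTower K E' ℓ.N := IsScalarTower.of_algebraMap_eq fun x => rfl
    have hG : IsGalois E' ℓ.N := IsGalois.tower_top_of_isGalois K E' ℓ.N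
    have h1 := A_sub (E := E') (E' := E') ℓ (i := fun x => (x : AlgebraicClosure K)) (fun x => rfl)
      (fun z => ⟨fun hz => ⟨⟨z, hz⟩, rfl⟩, fun ⟨x, hx⟩ => hx ▸ x.2⟩) (χ := χ)
      (linRep (1 : (ℓ.N ≃ₐ[E'] ℓ.N) →* ℂˣ)) (fun y g _ => by
        rw [linRep_char]
        exact (h g).symm)
    obtain ⟨q, hq⟩ := triv_stark (E := E') (M := ℓ.N) orb exi Pool.Agent.Q123.SI.lfn cn0
      Pool.Agent.Q223.SI.rga Pool.Agent.Q223.SI.rgb
      (ℓ.ram.tower ℓ.stable) (ℓ.θ.res (F := E') ℓ.stable.tower) 1 (linRep 1)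
      (fun g => by rw [linRep_char]; rfl)
    exact ⟨q, h1.trans hq⟩
  have h2 : ∀ σ : ℂ ≃+* ℂ, (fun g => σ (χ g)) = χ := by
    intro σ
    funext g
    rw [h, map_one]
  refine ⟨⟨E', hE, fun ℓ hℓ σ => ?_⟩, E', hE, fun ℓ hℓ => ?_⟩
  · obtain ⟨q, hq⟩ := key ℓ hℓ
    rw [h2, hq, map_ratCast]
  · obtain ⟨q, hq⟩ := key ℓ hℓ
    rw [hq]
    exact isAlgebraic_algebraMap (R := ℚ) (A := ℂ) q

/-- faithful characters with data for which Q1 up to a multiple holds -/
theorem starkU_of_pop {K E M : Type} [Field K] [NumberField K] [Field E] [NumberField E] [Field M]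
    [NumberField M] [Algebra K E] [Algebra K M] [Algebra E M] [IsScalarTower K E M] [IsGalois E M]
    {E' : IntermediateField K (AlgebraicClosure K)} {j : M →ₐ[K] AlgebraicClosure K}
    (hm : ∀ z, z ∈ E' ↔ ∃ x : E, j (algebraMap E M x) = z) {ψ : E'.fixingSubgroup → ℂ}
    {χ : (M ≃ₐ[E] M) →* ℂˣ} (hinf : Infl j ψ (cf χ)) (hχ : ∃ g, χ g ≠ 1) (D : PopData E M)
    (hex : D.Exact χ) (hQ : PopQ1 D) :
    StarkU E' ψ ∧ ∃ N₁ : IntermediateField K (AlgebraicClosure K), FiniteDimensional K N₁ ∧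
        ∀ ℓ : Level K, N₁ ≤ ℓ.N → IsAlgebraic ℚ (ℓ.A (F₀ := E') ψ) := by
  have H : Set1 K E M E' j χ ψ := ⟨D.comm, hm, hinf, hχ⟩
  obtain ⟨α, hα, hdet, N₁, hN₁, h1⟩ := H.cmp D.ram (pop_reps D hex hχ)
  have hr := ratio_of_pop D hQ hex hχ α hα hdet
  have hmem : rat D.S D.w α χ ∈ valF χ := mem_valF χ fun σ hσ => by
    rw [hr σ]
    congr 1
    ext g
    exact (hσ g).symm
  refine ⟨⟨N₁, hN₁, fun ℓ hℓ σ => ?_⟩, N₁, hN₁, fun ℓ hℓ => ?_⟩
  · obtain ⟨e, he, hev, h2⟩ := h1 ℓ hℓ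
    have h5 := h2 (RingEquiv.refl ℂ)
    change ℓ.A (F₀ := E') ψ = e * rat D.S D.w α χ at h5
    rw [h2 σ, h5, map_mul, hr σ]
  · obtain ⟨e, he, hev, h2⟩ := h1 ℓ hℓ
    have h5 := h2 (RingEquiv.refl ℂ)
    change ℓ.A (F₀ := E') ψ = e * rat D.S D.w α χ at h5
    rw [h5]
    exact (alg_valF χ hev).mul (alg_valF χ hmem)

theorem cyclic_of_inj {E M : Type} [Field E] [Field M] [Algebra E M] [FiniteDimensional E M]
    {χ : (M ≃ₐ[E] M) →* ℂˣ} (h : Function.Injective χ) : IsCyclic (M ≃ₐ[E] M) :=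
  Pool.Agent.Q20.SI.isCyclic_of_inj h

section
variable {K : Type} [Field K] [NumberField K]

/-- the unramified characters -/
theorem starkU_unram (hU : UnramPop K) {E' : Pool.Agent.Q20.RS.Sub K}
    (hE : FinExt E') {ψ : RL.Lin E'} (hψ : ψ.smooth) (hu : ψ.unram) : StarkU E' ψ.fn := by
  classical
  by_cases htr : ∀ g, ψ.fn g = 1
  · exact (starkU_triv hE htr).1
  obtain ⟨E, M, _, _, _, _, _, _, _, _, _, j, χ, hm, hinf, hinj, -⟩ :=
    Pool.Agent.Q214.SI.ker K E' hE ψ hψ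
  have hnt : ∃ y, χ y ≠ 1 := by
    by_contra hn
    push Not at hn
    refine htr fun g => ?_
    obtain ⟨y, hy⟩ := exists_restr (K := K) (E := E) (E' := E') j hm g
    rw [← hinf y g hy]
    unfold cf
    rw [hn, Units.val_one]
  have hur := Pool.Agent.Q123.SI.Unk.unk K E M E' hE j hm ψ hψ χ hinf hinj hu
  obtain ⟨D, q, hDS, hall, hex⟩ := exists_pop (S₀ := ∅) (fun p hp => absurd (hur p) hp) hinj hnt
  have hcard : D.S.card = 1 := by
    rw [Finset.card_eq_one]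
    refine ⟨q, Finset.ext fun p => ?_⟩
    rw [hDS, Finset.mem_singleton]
    simp
  exact (starkU_of_pop hm hinf hnt D hex (hU E M D (cyclic_of_inj hinj) hur hcard hall)).1

/-- the characters which are `-1` at the complex conjugations -/
theorem starkU_min (hM : MinPop K) {ψ : RL.Lin (base K)} (hψ : ψ.smooth) (ho : ψ.parity (-1)) :
    StarkU (base K) ψ.fn := by
  classical
  by_cases htr : ∀ g, ψ.fn g = 1
  · exact (starkU_triv fin_base htr).1
  obtain ⟨M, _, _, _, _, j, χ, hinf, hinj⟩ := kerf_base Pool.Agent.Q214.SI.ker ψ hψ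
  have hm := base_mem (F := K) j
  have hfin : {v : HeightOneSpectrum (𝓞 K) | ¬ Unrm M v}.Finite :=
    Pool.Agent.Q92.AR.ramified_finite
  have hnt : ∃ y, χ y ≠ 1 := by
    by_contra hn
    push Not at hn
    refine htr fun g => ?_
    obtain ⟨y, hy⟩ := exists_restr (K := K) (E := K) (E' := base K) j hm g
    rw [← hinf y g hy]
    unfold cf
    rw [hn, Units.val_one]
  obtain ⟨D, q, hDS, hall, hex⟩ := exists_pop (S₀ := hfin.toFinset)
    (fun p hp => hfin.mem_toFinset.2 hp) hinj hnt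
  have hno : NoReal K M := by
    intro v hv
    have h1 := odd_real (K := K) (E := K) (E' := base K) j hm hinf ho v hv
    unfold Triv at h1
    push Not at h1
    obtain ⟨g, hg, hg1⟩ := h1
    refine ⟨g, Sum.inr_injective hg, fun h => hg1 ?_⟩
    rw [h, map_one]
  refine (starkU_of_pop (K := K) (E' := base K) hm hinf hnt D hex
    (hM M D (cyclic_of_inj hinj) hno ⟨q, fun p hp => ?_⟩ hall)).1
  rcases (hDS p).1 hp with h | h
  · exact Or.inr h
  · exact Or.inl (hfin.mem_toFinset.1 h)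

theorem starkEq_of_starkU {E' : Pool.Agent.Q20.RS.Sub K} {χ : Fn E'} (h : StarkU E' χ) (σ : ℂ ≃+* ℂ) :
    StarkEq χ σ := by
  obtain ⟨N₁, h1, h2⟩ := h
  exact starkEq_of_level ⟨N₁, h1, fun ℓ hℓ => h2 ℓ hℓ σ⟩

/-- Stark's equality for all linear characters of `Gal(K̄/K)` -/
theorem starkEq_all (hU : UnramPop K) (hM : MinPop K) {ψ : RL.Lin (base K)} (hψ : ψ.smooth)
    (σ : ℂ ≃+* ℂ) : StarkEq ψ.fn σ := by
  have hF : FinExt (base K) := fin_base
  obtain ⟨η, hη, ho⟩ := RL.exists_odd hF hψ (s := -1) (Or.inr rfl)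
  have h1 := RL.stark_exact (K := K) σ fun E ψ hE hψ hu =>
    starkEq_of_starkU (starkU_unram hU hE hψ hu) σ
  exact (h1.1 (base K) _ η hF hψ hη).1
    (starkEq_of_starkU (starkU_min hM (RL.smooth_mul hψ hη.smooth) ho) σ)

/-- **The reduction** -/
theorem pop_main (hU : UnramPop K) (hM : MinPop K) {L : Type} [Field L]
    [NumberField L] [Algebra K L] [IsGalois K L] (D : PopData K L) : PopQ1 D := by
  refine pop_of_good D fun χ hex hχ => ?_
  let j : L →ₐ[K] AlgebraicClosure K := IsAlgClosed.lift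
  obtain ⟨ψ, hinf, hψ⟩ := exists_infl (E := K) (E' := base K) j (base_mem j) χ
  have H : Set1 K K L (base K) j χ ψ.fn := ⟨D.comm, base_mem j, hinf, hχ⟩
  exact H.good_of_level D.ram (pop_reps D hex hχ) fun σ => level_of_starkEq (starkEq_all hU hM hψ σ)

end

end Pool.Agent.H78.SI
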