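import Pool.Agent.H78.SI.Red1

/-!
# The reduction over the rational numbers, up to roots of unity
-/

set_option autoImplicit false
set_option linter.unusedSectionVars false

namespace Pool.Agent.H78.SI

open NumberField IsDedekindDomain Pool.Agent.Q20.RS Pool.Agent.Q20.SI Pool.Agent.Q280.SI
open Pool.Agent.Q20.LG (Above exists_place transitive)
open Pool.Agent.Q273.SP (IsPl)

/-- all places of `F` above the primes in `B` split completely in `L` -/
def SplitAt (F L : Type) [Field F] [NumberField F] [Field L] [NumberField L] [Algebra F L]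
    (B : Finset ℕ) : Prop :=
  ∀ p ∈ B, p.Prime → ∀ P : HeightOneSpectrum (𝓞 L), (p : 𝓞 L) ∈ P.asIdeal →
    ∀ g : L ≃ₐ[F] L, pra g P = P → g = 1

/-- **Class group type**: Q1 up to a multiple for cyclic extensions `L/E` which are unramified at all
finite places, `E` a totally complex field of degree divisible by `M`, in which the places above the
primes in `B` split completely, for the set `S` of the archimedean places and one prime, and all
completely split places in `S` -/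
def ClassPop (M : ℕ) (B : Finset ℕ) : Prop :=
  ∀ (E L : Type) [Field E] [NumberField E] [Field L] [NumberField L] [Algebra E L]
    [IsGalois E L] (D : PopData E L), IsCyclic (L ≃ₐ[E] L) →
    (∀ p : HeightOneSpectrum (𝓞 E), Unrm L p) → IsEmpty (E →+* ℝ) → M ∣ Module.finrank ℚ E →
    SplitAt E L B → D.S.card = 1 → AllSplit D → PopQ1 D

/-- **Siegel type**: the minimal case over all totally real fields -/
def SiegelPop : Prop :=
  ∀ (F : Type) [Field F] [NumberField F], IsTotallyReal F → MinPop F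

section
variable {K E M : Type} [Field K] [NumberField K] [Field E] [NumberField E] [Field M]
    [NumberField M] [Algebra K E] [Algebra K M] [Algebra E M] [IsScalarTower K E M] [IsGalois E M]
    {E' : IntermediateField K (AlgebraicClosure K)} {j : M →ₐ[K] AlgebraicClosure K}

/-- lifting elements of decomposition groups -/
theorem lift_dec (hm : ∀ z, z ∈ E' ↔ ∃ x : E, j (algebraMap E M x) = z) {p : ℕ} (hp : p.Prime)
    {P : HeightOneSpectrum (𝓞 M)} (hpP : (p : 𝓞 M) ∈ P.asIdeal) {y : M ≃ₐ[E] M}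
    (hy : pra y P = P)
    (hlift : ∃ g : GalF E', ∀ x : M, j (y x) = (g : Gal(AlgebraicClosure K/K)) (j x)) :
    ∃ (u : AlgebraicClosure K → ℝ) (g : GalF E'), Plc p u ∧
      Dcm u (g : Gal(AlgebraicClosure K/K)) ∧
      ∀ x : M, j (y x) = (g : Gal(AlgebraicClosure K/K)) (j x) := by
  obtain ⟨g₀, hg₀⟩ := hlift
  let X : IntermediateField K (AlgebraicClosure K) := j.fieldRange
  have iX : FiniteDimensional K X := (AlgEquiv.ofInjectiveField j).toLinearEquiv.finiteDimensional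
  have nX : NumberField X := NumberField.of_module_finite K X
  let e : M ≃+* X := (AlgEquiv.ofInjectiveField j).toRingEquiv
  have he : ∀ x : M, ((e x : X) : AlgebraicClosure K) = j x := fun x => rfl
  let eo : 𝓞 M ≃+* 𝓞 X := RingOfIntegers.mapRingEquiv e
  let v : HeightOneSpectrum (𝓞 X) := HeightOneSpectrum.equivOfRingEquiv eo P
  have hv : ∀ x : 𝓞 M, eo x ∈ v.asIdeal ↔ x ∈ P.asIdeal := by
    intro x
    change eo.symm (eo x) ∈ P.asIdeal ↔ _
    rw [RingEquiv.symm_apply_apply]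
  obtain ⟨u, hu⟩ := exists_place X v
  obtain ⟨⟨q, hq, hqu⟩, hu2⟩ := id hu
  have hu3 : ∀ x : 𝓞 M, x ∈ P.asIdeal ↔ u (j (x : M)) < 1 := by
    intro x
    rw [← hv, hu2]
    rfl
  have hyP : ∀ x : 𝓞 M, RingOfIntegers.mapRingEquiv y.toRingEquiv x ∈ P.asIdeal ↔
      x ∈ P.asIdeal := by
    intro x
    have h1 : (RingOfIntegers.mapRingEquiv y.toRingEquiv x ∈ (pra y P).asIdeal) ↔
        x ∈ P.asIdeal := by
      change (RingOfIntegers.mapRingEquiv y.toRingEquiv).symm
        (RingOfIntegers.mapRingEquiv y.toRingEquiv x) ∈ P.asIdeal ↔ _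
      rw [RingEquiv.symm_apply_apply]
    rwa [hy] at h1
  have hu' : Above X v (fun z => u ((g₀ : Gal(AlgebraicClosure K/K)) z)) := by
    refine ⟨⟨q, hq, hqu.comp (g₀ : Gal(AlgebraicClosure K/K))⟩, fun z => ?_⟩
    obtain ⟨x, rfl⟩ := eo.surjective z
    rw [hv, ← hyP, hu3]
    change u (j (y (x : M))) < 1 ↔ u ((g₀ : Gal(AlgebraicClosure K/K)) (j (x : M))) < 1
    rw [hg₀]
  obtain ⟨k, hk⟩ := transitive X v hu' hu
  have hkX : ∀ x : M, (k : Gal(AlgebraicClosure K/K)) (j x) = j x := fun x =>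
    (IntermediateField.mem_fixingSubgroup_iff _ _).1 k.2 _ ⟨x, rfl⟩
  have hkE : (k : Gal(AlgebraicClosure K/K)) ∈ E'.fixingSubgroup := by
    rw [IntermediateField.mem_fixingSubgroup_iff]
    intro z hz
    obtain ⟨x, rfl⟩ := (hm z).1 hz
    exact hkX _
  refine ⟨u, g₀ * ⟨k, hkE⟩, ?_, fun z => ?_, fun x => ?_⟩
  · have hpq : p = q := by
      by_contra hne
      have h1 := (hu3 (p : 𝓞 M)).1 hpP
      have h2 : ¬ (q : ℤ) ∣ (p : ℤ) := by
        intro h
        have h3 : q ∣ p := Int.natCast_dvd_natCast.1 h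
        exact hne ((Nat.prime_dvd_prime_iff_eq hq hp).1 h3).symm
      have h3 := hqu.int_coprime hq h2
      have h4 : j (((p : 𝓞 M) : M)) = (((p : ℤ)) : AlgebraicClosure K) := by
        simp
      rw [h4, h3] at h1
      exact lt_irrefl _ h1
    rw [hpq]
    exact (plc_iff q u).2 hqu
  · exact (congrFun hk z).symm
  · change _ = (g₀ : Gal(AlgebraicClosure K/K)) ((k : Gal(AlgebraicClosure K/K)) (j x))
    rw [hkX, hg₀]

end

/-- the numbers of the characters of class group type -/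
theorem class_kind {M : ℕ} {B : Finset ℕ} (hC : ClassPop M B) {F : Pool.Agent.Q20.RS.Sub ℚ} (hF : FinExt F)
    {L : Pool.Agent.Q20.RS.Sub ℚ} {ψ : Pool.Agent.Q20.RS.Lin F} (hψ : ClassGroup M B L ψ) :
    StarkU F ψ.fn ∧ ∃ N₁ : IntermediateField ℚ (AlgebraicClosure ℚ), FiniteDimensional ℚ N₁ ∧
        ∀ ℓ : Level ℚ, N₁ ≤ ℓ.N → IsAlgebraic ℚ (ℓ.A (F₀ := F) ψ.fn) := by
  classical
  by_cases htr : ∀ g, ψ.fn g = 1
  · exact starkU_triv hF htr
  obtain ⟨E, N, _, _, _, _, aE, _, _, _, _, j, χ, hm, hinf, hinj, hlift⟩ :=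
    Pool.Agent.Q214.SI.ker ℚ F hF ψ.hom ψ.smooth
  obtain rfl : aE = DivisionRing.toRatAlgebra := Subsingleton.elim _ _
  have hnt : ∃ y, χ y ≠ 1 := by
    by_contra hn
    push Not at hn
    refine htr fun g => ?_
    obtain ⟨y, hy⟩ := exists_restr (K := ℚ) (E := E) (E' := F) j hm g
    have h1 := hinf y g hy
    unfold cf at h1
    rw [hn, Units.val_one] at h1
    exact h1.symm
  have hur := Pool.Agent.Q123.SI.Unk.unk ℚ E N F hF j hm ψ.hom ψ.smooth χ hinf hinj
    fun p hp w hw g hg => by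
      have h1 := hψ.inertia p hp w hw g hg
      change ((ψ.hom g : ℂˣ) : ℂ) = 1
      rw [h1, Units.val_one]
  obtain ⟨D, q, hDS, hall, hex⟩ := exists_pop (S₀ := ∅) (fun p hp => absurd (hur p) hp) hinj hnt
  have hcard : D.S.card = 1 := by
    rw [Finset.card_eq_one]
    refine ⟨q, Finset.ext fun p => ?_⟩
    rw [hDS, Finset.mem_singleton]
    simp
  -- the isomorphism of `E` and `F`
  let e₀ : E →ₐ[ℚ] F := (j.comp (IsScalarTower.toAlgHom ℚ E N)).codRestrict F.toSubalgebra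
    fun x => (hm _).2 ⟨x, rfl⟩
  have he₀ : Function.Bijective e₀ := by
    refine ⟨e₀.toRingHom.injective, fun z => ?_⟩
    obtain ⟨x, hx⟩ := (hm _).1 z.2
    exact ⟨x, Subtype.ext hx⟩
  have hcx : IsEmpty (E →+* ℝ) := by
    refine ⟨fun f => hψ.complex.false ?_⟩
    exact f.comp ((AlgEquiv.ofBijective e₀ he₀).symm : F ≃+* E).toRingHom
  have hdeg : M ∣ Module.finrank ℚ E := by
    rw [(AlgEquiv.ofBijective e₀ he₀).toLinearEquiv.finrank_eq]
    exact hψ.degree
  have hspl : SplitAt E N B := by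
    intro p hpB hp P hpP g hg
    obtain ⟨u, g', hu, hd, hg'⟩ := lift_dec (K := ℚ) hm hp hpP hg (hlift g)
    have h1 := hψ.split p hpB hp u hu g' hd
    have h2 := hinf g g' hg'
    apply hinj
    apply Units.ext
    rw [map_one, Units.val_one]
    refine h2.trans ?_
    change ((ψ.hom g' : ℂˣ) : ℂ) = 1
    rw [h1, Units.val_one]
  exact starkU_of_pop hm hinf hnt D hex
    (hC E N D (cyclic_of_inj hinj) hur hcx hdeg hspl hcard hall)

/-- the numbers of the totally odd characters over totally real fields -/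
theorem odd_kind (hS : SiegelPop) {F : Pool.Agent.Q20.RS.Sub ℚ} (hF : FinExt F)
    (hreal : IsTotallyReal F) {ψ : Pool.Agent.Q20.RS.Lin F}
    (hpar : ∀ c : GalF F, CCj (K := ℚ) c.1 → ψ.hom c = -1) :
    StarkU F ψ.fn ∧ ∃ N₁ : IntermediateField ℚ (AlgebraicClosure ℚ), FiniteDimensional ℚ N₁ ∧
        ∀ ℓ : Level ℚ, N₁ ≤ ℓ.N → IsAlgebraic ℚ (ℓ.A (F₀ := F) ψ.fn) := by
  classical
  by_cases htr : ∀ g, ψ.fn g = 1
  · exact starkU_triv hF htr
  obtain ⟨E, N, _, _, _, _, aE, _, _, _, _, j, χ, hm, hinf, hinj, hlift⟩ :=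
    Pool.Agent.Q214.SI.ker ℚ F hF ψ.hom ψ.smooth
  obtain rfl : aE = DivisionRing.toRatAlgebra := Subsingleton.elim _ _
  have hnt : ∃ y, χ y ≠ 1 := by
    by_contra hn
    push Not at hn
    refine htr fun g => ?_
    obtain ⟨y, hy⟩ := exists_restr (K := ℚ) (E := E) (E' := F) j hm g
    have h1 := hinf y g hy
    unfold cf at h1
    rw [hn, Units.val_one] at h1
    exact h1.symm
  have hfin : {v : HeightOneSpectrum (𝓞 E) | ¬ Unrm N v}.Finite :=
    Pool.Agent.Q92.AR.ramified_finite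
  obtain ⟨D, q, hDS, hall, hex⟩ := exists_pop (S₀ := hfin.toFinset)
    (fun p hp => hfin.mem_toFinset.2 hp) hinj hnt
  let e₀ : E →ₐ[ℚ] F := (j.comp (IsScalarTower.toAlgHom ℚ E N)).codRestrict F.toSubalgebra
    fun x => (hm _).2 ⟨x, rfl⟩
  have hEr : IsTotallyReal E := by
    refine ⟨fun v => ?_⟩
    have he : Function.Bijective e₀ := by
      refine ⟨e₀.toRingHom.injective, fun z => ?_⟩
      obtain ⟨x, hx⟩ := (hm _).1 z.2
      exact ⟨x, Subtype.ext hx⟩
    let e : E ≃+* F := (AlgEquiv.ofBijective e₀ he).toRingEquiv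
    have h1 := hreal.isReal (v.comap (e.symm : F →+* E))
    have h2 : (v.comap (e.symm : F →+* E)).comap (e : E →+* F) = v := by
      ext x
      change v (e.symm (e x)) = v x
      rw [RingEquiv.symm_apply_apply]
    rw [← h2]
    exact h1.comap _
  have hno : NoReal E N := by
    intro v hv
    have h1 := odd_real (K := ℚ) (E := E) (E' := F) (ψ := ψ.hom) j hm hinf (fun c hc => by
      have h2 := hpar c hc
      change ((ψ.hom c : ℂˣ) : ℂ) = -1
      rw [h2]
      simp) v hv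
    unfold Triv at h1
    push Not at h1
    obtain ⟨g, hg, hg1⟩ := h1
    refine ⟨g, Sum.inr_injective hg, fun h => hg1 ?_⟩
    rw [h, map_one]
  refine starkU_of_pop hm hinf hnt D hex
    (hS E hEr N D (cyclic_of_inj hinj) hno ⟨q, fun p hp => ?_⟩ hall)
  rcases (hDS p).1 hp with h | h
  · exact Or.inr h
  · exact Or.inl (hfin.mem_toFinset.1 h)

/-- all characters -/
theorem all_char {M : ℕ} {B : Finset ℕ} (hM : 0 < M) (hC : ClassPop M B) (hS : SiegelPop)
    {F : Pool.Agent.Q20.RS.Sub ℚ} (hF : FinExt F) {χ : Fn F} (hχ : Char χ) :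
    (∀ σ : ℂ ≃+* ℂ, StarkRoots χ σ) ∧ AlgNumber χ := by
  obtain ⟨⟨ε, hε⟩, -⟩ := induction (K := ℚ) (-1) (Or.inr rfl)
  have hL : FinExt (base ℚ) := fin_base
  have key : ∀ F : Pool.Agent.Q20.RS.Sub ℚ, FinExt F → ∀ ψ : Pool.Agent.Q20.RS.Lin F,
      Kind (-1) ε M B (base ℚ) ψ → StarkU F ψ.fn ∧
        ∃ N₁ : IntermediateField ℚ (AlgebraicClosure ℚ), FiniteDimensional ℚ N₁ ∧
        ∀ ℓ : Level ℚ, N₁ ≤ ℓ.N → IsAlgebraic ℚ (ℓ.A (F₀ := F) ψ.fn) := by
    intro F hF ψ hψ
    rcases hψ with hψ | hψ | hψ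
    · refine starkU_triv hF fun g => ?_
      change ((ψ.hom g : ℂˣ) : ℂ) = 1
      rw [hψ]
      simp
    · exact class_kind hC hF hψ
    · exact odd_kind hS hF hψ.real hψ.parity
  refine ⟨fun σ => stark (K := ℚ) σ ε hε M B (base ℚ) hM hL (fun F hF ψ hψ => ?_) F hF χ hχ,
    algebraicity (K := ℚ) ε hε M B (base ℚ) hM hL (fun F hF ψ hψ => ?_) F hF χ hχ⟩
  · obtain ⟨N₁, h1, h2⟩ := (key F hF ψ hψ).1
    refine ⟨N₁, h1, fun ℓ hℓ => ⟨1, one_pos, ?_⟩⟩
    rw [pow_one, pow_one]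
    exact h2 ℓ.old hℓ σ
  · obtain ⟨N₁, h1, h2⟩ := (key F hF ψ hψ).2
    exact ⟨N₁, h1, fun ℓ hℓ => h2 ℓ.old hℓ⟩

/-- linear characters are characters -/
theorem lin_char' {F : Pool.Agent.Q20.RS.Sub ℚ} (ψ : RL.Lin F) (hψ : ψ.smooth) :
    Char (F := F) ψ.fn :=
  Pool.Agent.Q20.TR.lin_isCharacter F ψ hψ

/-- **The reduction over the rational numbers** -/
theorem roots_main {M : ℕ} {B : Finset ℕ} (hM : 0 < M) (hC : ClassPop M B) (hS : SiegelPop)
    {k K : Type} [Field k] [NumberField k] [Field K] [NumberField K] [Algebra k K] [IsGalois k K]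
    (D : PopData k K) : PopRoots D := by
  refine roots_of_good D fun χ hex hχ => ?_
  let j : K →ₐ[ℚ] AlgebraicClosure ℚ := IsAlgClosed.lift
  have t : IsScalarTower ℚ k K := inferInstance
  let E' : Pool.Agent.Q20.RS.Sub ℚ := (j.comp (IsScalarTower.toAlgHom ℚ k K)).fieldRange
  have hE' : FinExt E' :=
    (AlgEquiv.ofInjectiveField (j.comp (IsScalarTower.toAlgHom ℚ k K))).toLinearEquiv.finiteDimensional
  have hm : ∀ z, z ∈ E' ↔ ∃ x : k, j (algebraMap k K x) = z := fun z => Iff.rfl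
  obtain ⟨ψ, hinf, hψ⟩ := exists_infl (K := ℚ) (E := k) (E' := E') j hm χ
  have H : Set1 ℚ k K E' j χ ψ.fn := ⟨D.comm, hm, hinf, hχ⟩
  obtain ⟨h1, h2⟩ := all_char hM hC hS hE' (lin_char' ψ hψ)
  refine H.goodM_of_level D.ram (pop_reps D hex hχ) (fun σ => ?_) ?_
  · exact eventually_old (K := ℚ) (fun ℓ h => h) (h1 σ)
  · exact eventually_old (K := ℚ) (fun ℓ h => h) h2

end Pool.Agent.H78.SI
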